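import Mathlib

set_option autoImplicit false

namespace Pool.Agent.Lib.MP_6bfc9e_al

variable {R : Type*} [Ring R] {M : Type*} [AddCommGroup M] [Module R M]

variable (R M) in
/-- Every endomorphism of every submodule extends to an endomorphism of the module. -/
def WeaklyInjective : Prop :=
  ∀ (N : Submodule R M) (f : N →ₗ[R] N), ∃ g : M →ₗ[R] M, ∀ x : N, g (x : M) = ((f x : N) : M)

variable (R M) in
/-- Every homomorphism from a submodule into the module extends to an endomorphism. -/
def QuasiInjective : Prop :=
  ∀ (N : Submodule R M) (f : N →ₗ[R] M), ∃ g : M →ₗ[R] M, ∀ x : N, g (x : M) = f x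

variable (R M) in
/-- The socle: the sum of all simple submodules. -/
def Socle : Submodule R M := sSup {S : Submodule R M | IsSimpleModule R S}

variable (R M) in
/-- Every nonzero submodule meets the socle nontrivially. -/
def EssentialSocle : Prop := ∀ K : Submodule R M, K ≠ ⊥ → K ⊓ Socle R M ≠ ⊥

/-- the socle is mapped into the socle by every map defined on a submodule containing it -/
theorem map_socle_le {N : Submodule R M} (f : N →ₗ[R] M) (x : N)
    (hx : (x : M) ∈ Socle R M) (hN : Socle R M ≤ N) : f x ∈ Socle R M := by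
  classical
  -- consider the comap of the socle
  have key : Socle R M ≤ ((Socle R M).comap f).map N.subtype := by
    unfold Socle
    refine sSup_le ?_
    intro S hS y hy
    have hSN : S ≤ N := le_trans (le_sSup hS) hN
    refine ⟨⟨y, hSN hy⟩, ?_, rfl⟩
    -- f restricted to S
    let g : S →ₗ[R] M := f ∘ₗ (Submodule.inclusion hSN)
    change f ⟨y, hSN hy⟩ ∈ sSup {S : Submodule R M | IsSimpleModule R S}
    have hg : f ⟨y, hSN hy⟩ = g ⟨y, hy⟩ := rfl
    rw [hg]
    have : IsSimpleModule R S := hS
    rcases LinearMap.injective_or_eq_zero g with hinj | h0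
    · have : IsSimpleModule R (LinearMap.range g) :=
        IsSimpleModule.congr (LinearEquiv.ofInjective g hinj).symm
      have hle : LinearMap.range g ≤ sSup {S : Submodule R M | IsSimpleModule R S} :=
        le_sSup this
      exact hle ⟨_, rfl⟩
    · rw [h0]; simp
  obtain ⟨z, hz, hzx⟩ := key hx
  have : z = x := Subtype.ext hzx
  subst this
  exact hz

/-- A submodule containing the socle is essential when the socle is. -/
theorem eq_bot_of_inf_socle (hE : EssentialSocle R M) {K : Submodule R M}
    (h : K ⊓ Socle R M = ⊥) : K = ⊥ := by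
  by_contra hK
  exact hE K hK h

/-- A partial endomorphism is extendable if it is the restriction of an endomorphism. -/
def Extendable (N : Submodule R M) (f : N →ₗ[R] M) : Prop :=
  ∃ g : M →ₗ[R] M, ∀ x : N, g (x : M) = f x

/-- Zorn: each partial map extends to one with no proper extension. -/
theorem exists_maximal (f : M →ₗ.[R] M) : ∃ g : M →ₗ.[R] M, f ≤ g ∧ ∀ h : M →ₗ.[R] M, g ≤ h → h = g := by
  have := zorn_le_nonempty_Ici₀ f (α := M →ₗ.[R] M) (fun c hc hchain y hy => ?_) f le_rfl
  · obtain ⟨g, hg, hmax⟩ := this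
    exact ⟨g, hg, fun h hh => le_antisymm (hmax hh) hh⟩
  · have hdir : DirectedOn (· ≤ ·) c := hchain.directedOn
    exact ⟨LinearPMap.sSup c hdir, fun z hz => LinearPMap.le_sSup hdir hz⟩

/-- the domain of a maximal partial map contains the socle -/
theorem socle_le_domain {g : M →ₗ.[R] M} (hmax : ∀ h : M →ₗ.[R] M, g ≤ h → h = g) :
    Socle R M ≤ g.domain := by
  unfold Socle
  refine sSup_le ?_
  intro S hS
  have : IsSimpleModule R S := hS
  by_contra hnot
  -- S ⊓ domain = ⊥
  have hbot : S ⊓ g.domain = ⊥ := by
    have hatom : IsAtom S := isSimpleModule_iff_isAtom.mp hS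
    rcases hatom.le_iff.mp (inf_le_left : S ⊓ g.domain ≤ S) with h | h
    · exact h
    · exact absurd (inf_eq_left.mp h) hnot
  let z : M →ₗ.[R] M := ⟨S, 0⟩
  have hagree : ∀ (x : g.domain) (y : z.domain), (x : M) = y → g x = z y := by
    intro x y hxy
    have : (x : M) ∈ S ⊓ g.domain := ⟨hxy ▸ y.2, x.2⟩
    rw [hbot] at this
    have hx0 : x = 0 := Subtype.ext this
    rw [hx0]
    simp [z]
  have h1 : g ≤ LinearPMap.sup g z hagree := LinearPMap.left_le_sup _ _ _
  have h2 : z ≤ LinearPMap.sup g z hagree := LinearPMap.right_le_sup _ _ _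
  rw [hmax _ h1] at h2
  exact hnot h2.1

end Pool.Agent.Lib.MP_6bfc9e_al
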