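import Mathlib
import Pool.Agent.Lib.MP_6bfc9e_al.Basic

/-! Maps defined on submodules with Gabriel dimension. -/

set_option autoImplicit false

namespace Pool.Agent.Lib.MP_6bfc9e_al

variable {R : Type*} [Ring R] {M : Type*} [AddCommGroup M] [Module R M]

/-- `GabrielDim A B` (for submodules `A ≤ B` of `M`): the module `B/A` has Gabriel dimension, that
is, every nonzero factor module `B/U` (where `A ≤ U < B`) has a nonzero submodule `Z/U` such that
every proper factor module `Z/Y` of it (where `U < Y ≤ Z`) has Gabriel dimension (inductively). -/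
inductive GabrielDim : Submodule R M → Submodule R M → Prop
  | mk (A B : Submodule R M) (Z : Submodule R M → Submodule R M)
      (h1 : ∀ U, A ≤ U → U < B → U < Z U ∧ Z U ≤ B)
      (h2 : ∀ U, A ≤ U → U < B → ∀ Y, U < Y → Y ≤ Z U → GabrielDim Y (Z U)) : GabrielDim A B

/-- `M` is injective relative to its submodule `L` -/
def RelInj (L : Submodule R M) : Prop :=
  ∀ f : M →ₗ.[R] M, f.domain ≤ L →
    ∃ g : L →ₗ[R] M, ∀ (x : M) (hx : x ∈ f.domain) (hL : x ∈ L), g ⟨x, hL⟩ = f ⟨x, hx⟩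

/-- the largest submodule relative to which `M` is injective -/
def bigL : Submodule R M := sSup {L : Submodule R M | RelInj L}

theorem relInj_bigL : RelInj (bigL : Submodule R M) := by
  classical
  intro f hf
  -- Zorn
  let S : Set (M →ₗ.[R] M) := {g | f ≤ g ∧ g.domain ≤ (bigL : Submodule R M)}
  have hz : ∃ g, f ≤ g ∧ Maximal (· ∈ S) g := by
    refine zorn_le_nonempty₀ S ?_ f ⟨le_rfl, hf⟩
    intro c hc hchain y hy
    have hdir : DirectedOn (· ≤ ·) c := hchain.directedOn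
    refine ⟨LinearPMap.sSup c hdir, ⟨?_, ?_⟩, fun z hz => LinearPMap.le_sSup hdir hz⟩
    · exact le_trans (hc hy).1 (LinearPMap.le_sSup hdir hy)
    · change sSup (LinearPMap.domain '' c) ≤ _
      refine sSup_le ?_
      rintro _ ⟨z, hz, rfl⟩
      exact (hc hz).2
  obtain ⟨g, hfg, hg, hmax⟩ := hz
  have hle : (bigL : Submodule R M) ≤ g.domain := by
    refine sSup_le ?_
    intro L hL
    -- restrict g to L
    let r : M →ₗ.[R] M := ⟨g.domain ⊓ L, g.toFun ∘ₗ Submodule.inclusion inf_le_left⟩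
    obtain ⟨e, he⟩ := hL r inf_le_right
    let z : M →ₗ.[R] M := ⟨L, e⟩
    have hagree : ∀ (x : g.domain) (y : z.domain), (x : M) = y → g x = z y := by
      rintro ⟨x, hx⟩ ⟨y, hy⟩ hxy
      dsimp at hxy
      subst hxy
      exact (he x ⟨hx, hy⟩ hy).symm
    have h1 : g ≤ LinearPMap.sup g z hagree := LinearPMap.left_le_sup _ _ _
    have h2 : z ≤ LinearPMap.sup g z hagree := LinearPMap.right_le_sup _ _ _
    have h3 : LinearPMap.sup g z hagree ∈ S := by
      refine ⟨le_trans hfg h1, ?_⟩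
      rw [LinearPMap.domain_sup]
      exact sup_le hg.2 (le_sSup hL)
    have h4 := hmax h3 h1
    exact le_trans h2.1 h4.1
  refine ⟨g.toFun ∘ₗ Submodule.inclusion hle, ?_⟩
  intro x hx hL
  exact (hfg.2 (x := ⟨x, hx⟩) (y := ⟨x, hle hL⟩) rfl).symm

theorem relInj_range {L : Submodule R M} (hL : RelInj L) (φ : L →ₗ[R] M) :
    RelInj (LinearMap.range φ) := by
  classical
  intro f hf
  let U : Submodule R M := (f.domain.comap φ).map L.subtype
  have hUL : U ≤ L := by
    rintro _ ⟨x, _, rfl⟩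
    exact x.2
  have hU : ∀ x : U, φ ⟨x, hUL x.2⟩ ∈ f.domain := by
    rintro ⟨x, y, hy, rfl⟩
    exact hy
  let k : U →ₗ[R] M := f.toFun ∘ₗ LinearMap.codRestrict f.domain (φ ∘ₗ Submodule.inclusion hUL) hU
  obtain ⟨g, hg⟩ := hL ⟨U, k⟩ hUL
  have hker : LinearMap.ker φ ≤ LinearMap.ker g := by
    rintro ⟨x, hx⟩ hx0
    have hx0' : φ ⟨x, hx⟩ = 0 := hx0
    have hxU : x ∈ U := ⟨⟨x, hx⟩, by
      change φ ⟨x, hx⟩ ∈ f.domain
      rw [hx0']
      exact f.domain.zero_mem, rfl⟩
    have h1 := hg x hxU hx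
    change g ⟨x, hx⟩ = 0
    rw [h1]
    change f ⟨φ ⟨x, _⟩, _⟩ = 0
    have : (⟨φ ⟨x, hUL hxU⟩, hU ⟨x, hxU⟩⟩ : f.domain) = 0 := Subtype.ext hx0'
    rw [this, LinearPMap.map_zero]
  let g' : LinearMap.range φ →ₗ[R] M :=
    (LinearMap.ker φ).liftQ g hker ∘ₗ (φ.quotKerEquivRange).symm.toLinearMap
  refine ⟨g', ?_⟩
  rintro _ hx ⟨y, rfl⟩
  have h1 : (φ.quotKerEquivRange).symm ⟨φ y, ⟨y, rfl⟩⟩ = (LinearMap.ker φ).mkQ y := by
    rw [LinearEquiv.symm_apply_eq]
    rfl
  have hyU : (y : M) ∈ U := ⟨y, hx, rfl⟩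
  change (LinearMap.ker φ).liftQ g hker ((φ.quotKerEquivRange).symm ⟨φ y, _⟩) = _
  rw [h1, Submodule.mkQ_apply, Submodule.liftQ_apply]
  exact hg y hyU y.2

theorem map_bigL (φ : (bigL : Submodule R M) →ₗ[R] M) (x : (bigL : Submodule R M)) :
    φ x ∈ (bigL : Submodule R M) := by
  have h : LinearMap.range φ ≤ (bigL : Submodule R M) := le_sSup (relInj_range relInj_bigL φ)
  exact h ⟨x, rfl⟩

/-- every map from `bigL` extends to `M` -/
theorem extend_bigL (hWI : WeaklyInjective R M) (φ : (bigL : Submodule R M) →ₗ[R] M) :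
    ∃ g : M →ₗ[R] M, ∀ x : (bigL : Submodule R M), g x = φ x :=
  hWI _ (LinearMap.codRestrict _ φ (map_bigL φ))

/-- criterion for relative injectivity above `bigL` -/
theorem relInj_of (hWI : WeaklyInjective R M) {L : Submodule R M} (hL : bigL ≤ L)
    (h : ∀ (N : Submodule R M) (g : N →ₗ[R] M), (bigL : Submodule R M) ≤ N → N ≤ L →
      (∀ x : N, (x : M) ∈ (bigL : Submodule R M) → g x = 0) →
      ∃ t : L →ₗ[R] M, ∀ (x : M) (hx : x ∈ N) (hxL : x ∈ L), t ⟨x, hxL⟩ = g ⟨x, hx⟩) :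
    RelInj L := by
  classical
  intro f hf
  -- extend to bigL
  let r : M →ₗ.[R] M := ⟨f.domain ⊓ bigL, f.toFun ∘ₗ Submodule.inclusion inf_le_left⟩
  obtain ⟨e, he⟩ := relInj_bigL r inf_le_right
  let z : M →ₗ.[R] M := ⟨bigL, e⟩
  have hagree : ∀ (x : f.domain) (y : z.domain), (x : M) = y → f x = z y := by
    rintro ⟨x, hx⟩ ⟨y, hy⟩ hxy
    dsimp at hxy
    subst hxy
    exact (he x ⟨hx, hy⟩ hy).symm
  let f1 := LinearPMap.sup f z hagree
  have h1 : f ≤ f1 := LinearPMap.left_le_sup _ _ _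
  have h2 : z ≤ f1 := LinearPMap.right_le_sup _ _ _
  obtain ⟨t, ht⟩ := extend_bigL hWI e
  have hdom : f1.domain ≤ L := by
    change f.domain ⊔ bigL ≤ L
    exact sup_le hf hL
  obtain ⟨t2, ht2⟩ := h f1.domain (f1.toFun - t ∘ₗ f1.domain.subtype) h2.1 hdom (by
    intro x hx
    have hz : z ⟨x, hx⟩ = f1 x := h2.2 (x := ⟨x, hx⟩) (y := x) rfl
    change f1 x - t x = 0
    rw [← hz, ht ⟨x, hx⟩]
    exact sub_self _)
  refine ⟨t2 + t ∘ₗ L.subtype, ?_⟩
  intro x hx hxL
  have h3 := ht2 x (h1.1 hx) hxL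
  have h4 : f ⟨x, hx⟩ = f1 ⟨x, h1.1 hx⟩ := h1.2 rfl
  change t2 ⟨x, hxL⟩ + t x = _
  rw [h3, h4]
  change f1 ⟨x, _⟩ - t x + t x = _
  rw [sub_add_cancel]

/-- a nonzero submodule contains a simple one -/
theorem exists_simple_le (hE : EssentialSocle R M) {K : Submodule R M} (hK : K ≠ ⊥) :
    ∃ S : Submodule R M, IsSimpleModule R S ∧ S ≤ K := by
  classical
  have hss : IsSemisimpleModule R (Socle R M) := by
    unfold Socle
    rw [sSup_eq_iSup]
    exact isSemisimpleModule_biSup_of_isSemisimpleModule_submodule (fun S hS => by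
      have : IsSimpleModule R S := hS
      infer_instance)
  have h1 := hE K hK
  let K' : Submodule R (Socle R M) := (K ⊓ Socle R M).comap (Socle R M).subtype
  have hK' : K' ≠ ⊥ := by
    intro h0
    apply h1
    rw [eq_bot_iff]
    intro x hx
    have : (⟨x, hx.2⟩ : Socle R M) ∈ K' := hx
    rw [h0, Submodule.mem_bot] at this
    rw [Submodule.mem_bot]
    exact congrArg Subtype.val this
  obtain ⟨a, ha, haK⟩ := (eq_bot_or_exists_atom_le K').resolve_left hK'
  have hs : IsSimpleModule R a := isSimpleModule_iff_isAtom.mpr ha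
  refine ⟨a.map (Socle R M).subtype, ?_, ?_⟩
  · exact IsSimpleModule.congr (Submodule.equivMapOfInjective _ (Subtype.val_injective) a).symm
  · rintro _ ⟨x, hx, rfl⟩
    exact (haK hx).1

/-- a map defined on `N ≥ bigL`, killing exactly `bigL`, is only possible for `N = bigL` -/
theorem le_bigL_of_ker (hWI : WeaklyInjective R M) (hE : EssentialSocle R M) {N : Submodule R M}
    (g : N →ₗ[R] M) (hN : (bigL : Submodule R M) ≤ N)
    (hk0 : ∀ x : N, (x : M) ∈ (bigL : Submodule R M) → g x = 0)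
    (hk : ∀ x : N, g x = 0 → (x : M) ∈ (bigL : Submodule R M)) : N ≤ bigL := by
  classical
  by_contra hnot
  obtain ⟨n, hnN, hn⟩ := SetLike.not_le_iff_exists.1 hnot
  have hr : LinearMap.range g ≠ ⊥ := by
    intro h0
    apply hn
    apply hk ⟨n, hnN⟩
    have : g ⟨n, hnN⟩ ∈ LinearMap.range g := ⟨_, rfl⟩
    rw [h0, Submodule.mem_bot] at this
    exact this
  obtain ⟨S, hS, hSr⟩ := exists_simple_le hE hr
  have hatom : IsAtom S := isSimpleModule_iff_isAtom.mp hS
  -- N1 = preimage of S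
  let N1 : Submodule R M := (S.comap g).map N.subtype
  have hN1N : N1 ≤ N := by
    rintro _ ⟨x, _, rfl⟩
    exact x.2
  have hmem : ∀ x : N, (x : M) ∈ N1 ↔ g x ∈ S := by
    intro x
    constructor
    · rintro ⟨y, hy, hyx⟩
      have : y = x := Subtype.ext hyx
      subst this
      exact hy
    · intro h
      exact ⟨x, h, rfl⟩
  have hb1 : (bigL : Submodule R M) ≤ N1 := by
    intro x hx
    refine (hmem ⟨x, hN hx⟩).2 ?_
    rw [hk0 ⟨x, hN hx⟩ hx]
    exact S.zero_mem
  have hrel : RelInj N1 := by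
    refine relInj_of hWI hb1 ?_
    intro D d hD hD1 hd
    by_cases hDb : D ≤ bigL
    · refine ⟨0, ?_⟩
      intro x hx _
      rw [hd ⟨x, hx⟩ (hDb hx)]
      rfl
    · obtain ⟨y, hyD, hy⟩ := SetLike.not_le_iff_exists.1 hDb
      -- g maps D onto S
      let V : Submodule R M := (D.comap N.subtype).map g
      have hVS : V ≤ S := by
        rintro _ ⟨x, hx, rfl⟩
        exact (hmem x).1 (hD1 hx)
      have hV0 : V ≠ ⊥ := by
        intro h0
        have h1 : g ⟨y, hN1N (hD1 hyD)⟩ ∈ V := ⟨⟨y, hN1N (hD1 hyD)⟩, hyD, rfl⟩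
        rw [h0, Submodule.mem_bot] at h1
        exact hy (hk _ h1)
      have hVS' : V = S := (hatom.le_iff.mp hVS).resolve_left hV0
      have hle : N1 ≤ D := by
        intro x hx
        have h1 : g ⟨x, hN1N hx⟩ ∈ V := by
          rw [hVS']
          exact (hmem ⟨x, hN1N hx⟩).1 hx
        obtain ⟨w, hw, hwx⟩ := h1
        have h2 : g (⟨x, hN1N hx⟩ - w) = 0 := by rw [map_sub, hwx, sub_self]
        have h3 : x - (w : M) ∈ D := hD (hk _ h2)
        have h4 : (w : M) ∈ D := hw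
        have := D.add_mem h3 h4
        rwa [sub_add_cancel] at this
      refine ⟨d ∘ₗ Submodule.inclusion hle, ?_⟩
      intro x hx _
      rfl
  have hle : N1 ≤ bigL := le_sSup hrel
  obtain ⟨s, hs, hs0⟩ := (Submodule.ne_bot_iff S).1 hatom.1
  obtain ⟨w, rfl⟩ := hSr hs
  exact hs0 (hk0 w (hle ((hmem w).2 hs)))

theorem key (hWI : WeaklyInjective R M) (hE : EssentialSocle R M) {A B : Submodule R M}
    (hG : GabrielDim A B) : A ≤ B → ∀ (B' : Submodule R M), B' ≤ B → ∀ f : B' →ₗ[R] M,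
      (∀ x : B', (x : M) ∈ A → f x = 0) → ∀ x : B', f x ∈ (bigL : Submodule R M) := by
  classical
  induction hG with
  | mk A B Z h1 h2 ih =>
    intro hAB B' hB' f hf
    by_contra hcon
    push Not at hcon
    obtain ⟨x0, hx0⟩ := hcon
    let U' : Submodule R M := (bigL.comap f).map B'.subtype
    have hU' : ∀ x : B', (x : M) ∈ U' ↔ f x ∈ (bigL : Submodule R M) := by
      intro x
      constructor
      · rintro ⟨y, hy, hyx⟩
        have : y = x := Subtype.ext hyx
        subst this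
        exact hy
      · intro h
        exact ⟨x, h, rfl⟩
    have hU'B : U' ≤ B' := by
      rintro _ ⟨x, _, rfl⟩
      exact x.2
    let S : Set (Submodule R M) := {U | U ≤ B ∧ U ⊓ B' ≤ U'}
    have hAS : A ∈ S := by
      refine ⟨hAB, ?_⟩
      rintro x ⟨hxA, hxB⟩
      refine (hU' ⟨x, hxB⟩).2 ?_
      rw [hf ⟨x, hxB⟩ hxA]
      exact Submodule.zero_mem _
    obtain ⟨U, hAU, hUS, hUmax⟩ := zorn_le_nonempty₀ S (by
      intro c hc hchain y hy
      refine ⟨sSup c, ⟨sSup_le fun z hz => (hc hz).1, ?_⟩, fun z hz => le_sSup hz⟩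
      rintro x ⟨hx, hxB⟩
      obtain ⟨z, hz, hxz⟩ := (Submodule.mem_sSup_of_directed ⟨y, hy⟩ hchain.directedOn).1 hx
      exact (hc hz).2 ⟨hxz, hxB⟩) A hAS
    have hUB : U ≤ B := hUS.1
    have hU'U : U' ≤ U := by
      have : U ⊔ U' ∈ S := by
        refine ⟨sup_le hUB (hU'B.trans hB'), ?_⟩
        rw [sup_comm, sup_inf_assoc_of_le U hU'B]
        exact sup_le le_rfl hUS.2
      exact le_trans le_sup_right (hUmax this le_sup_left)
    have hUlt : U < B := by
      refine lt_of_le_of_ne hUB ?_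
      rintro rfl
      exact hx0 ((hU' x0).1 (hUS.2 ⟨hB' x0.2, x0.2⟩))
    obtain ⟨hUZ, hZB⟩ := h1 U hAU hUlt
    have hZS : ¬ (Z U ⊓ B' ≤ U') := by
      intro h
      exact absurd (hUmax ⟨hZB, h⟩ hUZ.le) (not_le_of_gt hUZ)
    obtain ⟨z1, ⟨hz1Z, hz1B⟩, hz1⟩ := SetLike.not_le_iff_exists.1 hZS
    have hz1' : f ⟨z1, hz1B⟩ ∉ (bigL : Submodule R M) := fun h => hz1 ((hU' ⟨z1, hz1B⟩).2 h)
    let L : Submodule R M := bigL ⊔ ((Z U).comap B'.subtype).map f
    have hrel : RelInj L := by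
      refine relInj_of hWI le_sup_left ?_
      intro N g hbN hNL hg
      by_cases hk : ∀ x : N, g x = 0 → (x : M) ∈ (bigL : Submodule R M)
      · have hNb := le_bigL_of_ker hWI hE g hbN hg hk
        refine ⟨0, ?_⟩
        intro x hx _
        rw [hg ⟨x, hx⟩ (hNb hx)]
        rfl
      · push Not at hk
        obtain ⟨k, hk0, hkb⟩ := hk
        -- Z_N
        let ZN : Submodule R M := ((Z U) ⊓ (N.comap f).map B'.subtype)
        have hZNB : ZN ≤ B' := by
          rintro x ⟨_, y, _, rfl⟩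
          exact y.2
        have hZN : ∀ x : ZN, f ⟨x, hZNB x.2⟩ ∈ N := by
          rintro ⟨x, hx, y, hy, rfl⟩
          exact hy
        let F : ZN →ₗ[R] M := g ∘ₗ LinearMap.codRestrict N (f ∘ₗ Submodule.inclusion hZNB) hZN
        have hF : ∀ x : ZN, F x = g ⟨f ⟨x, hZNB x.2⟩, hZN x⟩ := fun x => rfl
        let Y' : Submodule R M := (LinearMap.ker F).map ZN.subtype
        have hdec : ∀ n : N, ∃ m : N, (m : M) ∈ (bigL : Submodule R M) ∧ ∃ z : ZN,
            f ⟨z, hZNB z.2⟩ + m = n := by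
          rintro ⟨n, hn⟩
          obtain ⟨m, hm, w, ⟨z, hz, hzw⟩, hmw⟩ := Submodule.mem_sup.1 (hNL hn)
          have hfz : f z ∈ N := by
            have : f z = n - m := by rw [← hmw, ← hzw]; abel
            rw [this]
            exact N.sub_mem hn (hbN hm)
          refine ⟨⟨m, hbN hm⟩, hm, ⟨z, hz, z, hfz, rfl⟩, ?_⟩
          change f z + m = n
          rw [← hmw, ← hzw, add_comm]
        obtain ⟨m, hm, z, hmz⟩ := hdec k
        have hgz : F z = 0 := by
          have h3 : (⟨f ⟨z, hZNB z.2⟩, hZN z⟩ : N) = k - m := by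
            apply Subtype.ext
            change f ⟨z, _⟩ = (k : M) - (m : M)
            rw [← hmz, add_sub_cancel_right]
          rw [hF, h3, map_sub, hk0, hg m hm, sub_zero]
        have hzU : (z : M) ∉ U := by
          intro h
          apply hkb
          rw [← hmz]
          exact Submodule.add_mem _ ((hU' ⟨z, hZNB z.2⟩).1 (hUS.2 ⟨h, hZNB z.2⟩)) hm
        have hYlt : U < U ⊔ Y' := by
          refine lt_of_le_of_ne le_sup_left ?_
          intro h
          apply hzU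
          rw [h]
          exact (le_sup_right : Y' ≤ U ⊔ Y') ⟨z, hgz, rfl⟩
        have hY'Z : Y' ≤ ZN := by
          rintro _ ⟨x, _, rfl⟩
          exact x.2
        have hYZ : U ⊔ Y' ≤ Z U := sup_le hUZ.le (hY'Z.trans inf_le_left)
        have hvan : ∀ x : ZN, (x : M) ∈ U ⊔ Y' → F x = 0 := by
          intro x hx
          obtain ⟨u, hu, y, ⟨y', hy', rfl⟩, huy⟩ := Submodule.mem_sup.1 hx
          have huZ : u ∈ ZN := by
            have : u = x - y' := by rw [← huy]; simp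
            rw [this]
            exact ZN.sub_mem x.2 y'.2
          have hFu : F ⟨u, huZ⟩ = 0 := by
            rw [hF]
            apply hg
            exact (hU' ⟨u, hZNB huZ⟩).1 (hUS.2 ⟨hu, hZNB huZ⟩)
          have hx' : x = ⟨u, huZ⟩ + y' := Subtype.ext huy.symm
          rw [hx', map_add, hFu, zero_add]
          exact hy'
        have hIH := ih U hAU hUlt (U ⊔ Y') hYlt hYZ hYZ ZN inf_le_left F hvan
        have hgN : ∀ n : N, g n ∈ N := by
          intro n
          obtain ⟨m, hm, z, hmz⟩ := hdec n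
          have h3 : n = ⟨f ⟨z, hZNB z.2⟩, hZN z⟩ + m := Subtype.ext hmz.symm
          rw [h3, map_add, hg m hm, add_zero, ← hF]
          exact hbN (hIH z)
        obtain ⟨t, ht⟩ := hWI N (LinearMap.codRestrict N g hgN)
        refine ⟨t ∘ₗ L.subtype, ?_⟩
        intro x hx _
        exact ht ⟨x, hx⟩
    have hLb : L ≤ bigL := le_sSup hrel
    exact hz1' (hLb ((le_sup_right : _ ≤ L) ⟨⟨z1, hz1B⟩, hz1Z, rfl⟩))

/-- maps defined on submodules of a submodule with Gabriel dimension extend -/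
theorem extend_of_gabrielDim (hWI : WeaklyInjective R M) (hE : EssentialSocle R M)
    (N N' : Submodule R M) (hN : GabrielDim ⊥ N) (hN' : N' ≤ N) (f : N' →ₗ[R] M) :
    ∃ g : M →ₗ[R] M, ∀ x : N', g (x : M) = f x := by
  have hle : N ≤ bigL := by
    intro x hx
    exact key hWI hE hN bot_le N le_rfl N.subtype (fun y hy => hy) ⟨x, hx⟩
  obtain ⟨e, he⟩ := relInj_bigL (⟨N', f⟩ : M →ₗ.[R] M) (hN'.trans hle)
  obtain ⟨g, hg⟩ := extend_bigL hWI e
  refine ⟨g, ?_⟩
  intro x
  rw [← show e ⟨x, hle (hN' x.2)⟩ = f x from he x x.2 (hle (hN' x.2))]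
  exact hg ⟨x, hle (hN' x.2)⟩

/-- noetherian subquotients have Gabriel dimension -/
theorem gabrielDim_of_noetherian {U Z : Submodule R M}
    (h : IsNoetherian R (Z ⧸ U.comap Z.subtype)) (A : Submodule R M) (hUA : U ≤ A) :
    GabrielDim A Z := by
  classical
  have hwf : WellFoundedGT (Submodule R (Z ⧸ U.comap Z.subtype)) := inferInstance
  let F : Submodule R M → Submodule R (Z ⧸ U.comap Z.subtype) :=
    fun A => (A.comap Z.subtype).map (U.comap Z.subtype).mkQ
  have hF : ∀ A A' : Submodule R M, U ≤ A → A < A' → A' ≤ Z → F A < F A' := by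
    intro A A' hU hlt hle
    refine lt_of_le_of_ne (Submodule.map_mono (Submodule.comap_mono hlt.le)) ?_
    intro heq
    obtain ⟨x, hx, hxA⟩ := SetLike.not_le_iff_exists.1 (not_le_of_gt hlt)
    have h1 : (U.comap Z.subtype).mkQ ⟨x, hle hx⟩ ∈ F A := by
      rw [heq]
      exact ⟨⟨x, hle hx⟩, hx, rfl⟩
    obtain ⟨y, hy, hyx⟩ := h1
    have h2 : y - ⟨x, hle hx⟩ ∈ U.comap Z.subtype := by
      rw [← Submodule.ker_mkQ (U.comap Z.subtype), LinearMap.mem_ker, map_sub, hyx, sub_self]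
    have h3 : (y : M) - x ∈ A := hU h2
    have h4 : (y : M) ∈ A := hy
    apply hxA
    have := A.sub_mem h4 h3
    rwa [sub_sub_cancel] at this
  have main : ∀ W : Submodule R (Z ⧸ U.comap Z.subtype), ∀ A : Submodule R M, U ≤ A → F A = W →
      GabrielDim A Z := by
    intro W
    induction W using hwf.wf.induction with
    | h W ih =>
      intro A hUA hW
      refine GabrielDim.mk A Z (fun _ => Z) (fun V _ hV => ⟨hV, le_rfl⟩) ?_
      intro V hAV hVZ Y hVY hYZ
      have hlt : F A < F Y := hF A Y hUA (lt_of_le_of_lt hAV hVY) hYZ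
      exact ih (F Y) (by rw [← hW]; exact hlt) Y (hUA.trans (hAV.trans hVY.le)) rfl
  exact main _ A hUA rfl

/-- if every nonzero factor of `M` has a nonzero noetherian submodule, `M` has Gabriel dimension -/
theorem gabrielDim_top
    (h : ∀ U : Submodule R M, U ≠ ⊤ → ∃ Z : Submodule R M, U < Z ∧
      IsNoetherian R (Z ⧸ U.comap Z.subtype)) : GabrielDim (⊥ : Submodule R M) ⊤ := by
  classical
  choose Z hZ hn using h
  refine GabrielDim.mk ⊥ ⊤ (fun U => if hU : U = ⊤ then ⊤ else Z U hU) ?_ ?_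
  · intro U _ hU
    rw [dif_neg hU.ne]
    exact ⟨hZ U hU.ne, le_top⟩
  · intro U _ hU Y hUY _
    rw [dif_neg hU.ne]
    exact gabrielDim_of_noetherian (hn U hU.ne) Y hUY.le

end Pool.Agent.Lib.MP_6bfc9e_al
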