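import Mathlib
import Pool.Agent.Lib.MP_6bfc9e_al.Gabriel

/-! Weakly injective modules on which the ring acts commutatively, modulo `bigL`. -/

set_option autoImplicit false

namespace Pool.Agent.Lib.MP_6bfc9e_al

variable {R : Type*} [Ring R] {M : Type*} [AddCommGroup M] [Module R M]

/-- simple submodules lie in `bigL` -/
theorem simple_le_bigL {S : Submodule R M} (hS : IsSimpleModule R S) :
    S ≤ (bigL : Submodule R M) := by
  classical
  have hatom : IsAtom S := isSimpleModule_iff_isAtom.mp hS
  have hrel : RelInj S := by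
    intro f hf
    rcases hatom.le_iff.mp hf with h | h
    · refine ⟨0, ?_⟩
      intro x hx hL
      rw [h, Submodule.mem_bot] at hx
      subst hx
      have : f (⟨0, hx⟩ : f.domain) = 0 := LinearPMap.map_zero f
      rw [this]
      rfl
    · refine ⟨f.toFun ∘ₗ Submodule.inclusion h.ge, ?_⟩
      intro x hx hL
      rfl
  exact le_sSup hrel

/-- If `y` generates a simple module and the annihilator of `y` kills `w`, then `w` lies in
`bigL`. -/
theorem mem_bigL_of_ann {y w : M} {S : Submodule R M} (hS : IsSimpleModule R S) (hyS : y ∈ S)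
    (hy0 : y ≠ 0) (hw : ∀ p : R, p • y = 0 → p • w = 0) : w ∈ (bigL : Submodule R M) := by
  classical
  by_cases hw0 : w = 0
  · rw [hw0]
    exact Submodule.zero_mem _
  have hatom : IsAtom S := isSimpleModule_iff_isAtom.mp hS
  let P : Submodule R R := LinearMap.ker (LinearMap.toSpanSingleton R M y)
  have hspanS : Submodule.span R {y} = S := by
    have hle : Submodule.span R {y} ≤ S := by
      rw [Submodule.span_singleton_le_iff_mem]
      exact hyS
    rcases hatom.le_iff.mp hle with h | h
    · exact absurd (Submodule.span_singleton_eq_bot.1 h) hy0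
    · exact h
  have hPmax : IsCoatom P := by
    have e1 := (LinearMap.toSpanSingleton R M y).quotKerEquivRange
    rw [LinearMap.range_toSpanSingleton] at e1
    have hs : IsSimpleModule R (Submodule.span R {y}) := by
      rw [hspanS]
      exact hS
    have hs2 : IsSimpleModule R (R ⧸ P) := IsSimpleModule.congr e1
    rwa [isSimpleModule_iff_isCoatom] at hs2
  have hk : P ≤ LinearMap.ker (LinearMap.toSpanSingleton R M w) := by
    intro r hr
    rw [LinearMap.mem_ker, LinearMap.toSpanSingleton_apply] at hr ⊢
    exact hw r hr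
  have hk2 : LinearMap.ker (LinearMap.toSpanSingleton R M w) = P := by
    rcases hPmax.le_iff.mp hk with h | h
    · exfalso
      apply hw0
      have h1 : (1 : R) ∈ LinearMap.ker (LinearMap.toSpanSingleton R M w) := by
        rw [h]
        trivial
      rw [LinearMap.mem_ker, LinearMap.toSpanSingleton_apply, one_smul] at h1
      exact h1
    · exact h
  have hsimple : IsSimpleModule R (Submodule.span R {w}) := by
    have e1 := (LinearMap.toSpanSingleton R M w).quotKerEquivRange
    rw [LinearMap.range_toSpanSingleton] at e1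
    have hs : IsSimpleModule R (R ⧸ LinearMap.ker (LinearMap.toSpanSingleton R M w)) := by
      rw [hk2, isSimpleModule_iff_isCoatom]
      exact hPmax
    exact IsSimpleModule.congr e1.symm
  exact simple_le_bigL hsimple (Submodule.mem_span_singleton_self w)

/-- Assume that `R` acts commutatively on `R x` modulo `bigL`.  If `c (c x)` lies in `bigL` then
so does `c x`. -/
theorem smul_mem_bigL_of_sq (hWI : WeaklyInjective R M) {c : R} {x : M}
    (hcomm : ∀ r s : R, ∀ v ∈ Submodule.span R {x}, (r * s - s * r) • v ∈ (bigL : Submodule R M))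
    (hx : c • c • x ∈ (bigL : Submodule R M)) : c • x ∈ (bigL : Submodule R M) := by
  classical
  set V : Submodule R M := Submodule.span R {x} with hV
  have hxV : x ∈ V := Submodule.mem_span_singleton_self x
  have hcomm' : ∀ r s : R, r • s • x - s • r • x ∈ (bigL : Submodule R M) := by
    intro r s
    have := hcomm r s x hxV
    rwa [sub_smul, mul_smul, mul_smul] at this
  have hCV : ∀ v ∈ V, c • c • v ∈ (bigL : Submodule R M) := by
    intro v hv
    obtain ⟨r, rfl⟩ := Submodule.mem_span_singleton.1 hv
    -- `c c r x = r c c x + c [c, r] x + [c, r] c x`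
    have h1 : c • c • r • x = r • c • c • x + c • ((c * r - r * c) • x) +
        (c * r - r * c) • (c • x) := by
      simp only [sub_smul, mul_smul, smul_sub]
      abel
    rw [h1]
    refine Submodule.add_mem _ (Submodule.add_mem _ (Submodule.smul_mem _ r hx)
      (Submodule.smul_mem _ c (hcomm c r x hxV))) (hcomm c r _ (V.smul_mem c hxV))
  let L : Submodule R M := bigL ⊔ Submodule.span R {c • x}
  have hrel : RelInj L := by
    refine relInj_of hWI le_sup_left ?_
    intro N g hUN hNL hg
    -- the elements killed by `c` and by all commutators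
    let K : Submodule R M :=
      { carrier := {k | c • k = 0 ∧ ∀ r s t : R, (r * s - s * r) • t • k = 0}
        add_mem' := by
          rintro a b ⟨ha, ha'⟩ ⟨hb, hb'⟩
          refine ⟨by rw [smul_add, ha, hb, add_zero], ?_⟩
          intro r s t
          rw [smul_add, smul_add, ha', hb', add_zero]
        zero_mem' := by
          refine ⟨smul_zero c, ?_⟩
          intro r s t
          rw [smul_zero, smul_zero]
        smul_mem' := by
          rintro u a ⟨ha, ha'⟩
          constructor
          · have h1 := ha' c u 1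
            rw [one_smul, sub_smul, mul_smul, mul_smul, ha, smul_zero, sub_zero] at h1
            exact h1
          · intro r s t
            rw [← mul_smul t u a]
            exact ha' r s (t * u) }
    have hK1 : ∀ k ∈ K, c • k = 0 := fun k hk => hk.1
    have hK2 : ∀ k ∈ K, ∀ r s : R, (r * s - s * r) • k = 0 := by
      intro k hk r s
      have := hk.2 r s 1
      rwa [one_smul] at this
    have hKcomm : ∀ k ∈ V ⊔ K, ∀ r s : R, (r * s - s * r) • k ∈ (bigL : Submodule R M) := by
      intro k hk r s
      obtain ⟨v, hv, k', hk', rfl⟩ := Submodule.mem_sup.1 hk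
      rw [smul_add, hK2 k' hk', add_zero]
      exact hcomm r s v hv
    -- `W = {w ∈ V + K : c w ∈ N}`
    let W : Submodule R M :=
      { carrier := {w | w ∈ V ⊔ K ∧ c • w ∈ N}
        add_mem' := by
          rintro a b ⟨ha, ha'⟩ ⟨hb, hb'⟩
          refine ⟨Submodule.add_mem _ ha hb, ?_⟩
          rw [smul_add]
          exact N.add_mem ha' hb'
        zero_mem' := by
          refine ⟨Submodule.zero_mem _, ?_⟩
          rw [smul_zero]
          exact N.zero_mem
        smul_mem' := by
          rintro u a ⟨ha, ha'⟩
          refine ⟨Submodule.smul_mem _ u ha, ?_⟩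
          have h1 : c • u • a = u • c • a + (c * u - u * c) • a := by
            simp only [sub_smul, mul_smul]
            abel
          rw [h1]
          exact N.add_mem (N.smul_mem u ha') (hUN (hKcomm a ha c u)) }
    have hWN : ∀ w : W, c • (w : M) ∈ N := fun w => w.2.2
    let F : W →ₗ[R] M :=
      { toFun := fun w => g ⟨c • (w : M), hWN w⟩
        map_add' := by
          intro a b
          rw [← map_add]
          congr 1
          apply Subtype.ext
          change c • ((a : M) + (b : M)) = c • (a : M) + c • (b : M)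
          rw [smul_add]
        map_smul' := by
          intro u a
          have h2 : (c * u - u * c) • (a : M) ∈ N := hUN (hKcomm a a.2.1 c u)
          have h3 : g ⟨(c * u - u * c) • (a : M), h2⟩ = 0 := hg _ (hKcomm a a.2.1 c u)
          rw [RingHom.id_apply, ← map_smul, ← add_zero (g (u • _)), ← h3, ← map_add]
          congr 1
          apply Subtype.ext
          change c • u • (a : M) = u • c • (a : M) + (c * u - u * c) • (a : M)
          simp only [sub_smul, mul_smul]
          abel }
    have hF : ∀ w : W, F w = g ⟨c • (w : M), hWN w⟩ := fun w => rfl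
    have hKW : K ≤ W := by
      intro k hk
      refine ⟨(le_sup_right : K ≤ V ⊔ K) hk, ?_⟩
      rw [hK1 k hk]
      exact N.zero_mem
    have hcc : ∀ w : W, c • c • (w : M) ∈ (bigL : Submodule R M) := by
      intro w
      obtain ⟨v, hv, k, hk, hvk⟩ := Submodule.mem_sup.1 w.2.1
      rw [← hvk, smul_add, smul_add, hK1 k hk, smul_zero, add_zero]
      exact hCV v hv
    have hFW : ∀ w : W, F w ∈ W := by
      intro w
      apply hKW
      constructor
      · rw [hF, ← map_smul]
        exact hg _ (hcc w)
      · intro r s t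
        rw [hF, ← map_smul, ← map_smul]
        apply hg
        change (r * s - s * r) • t • c • (w : M) ∈ (bigL : Submodule R M)
        obtain ⟨v, hv, k, hk, hvk⟩ := Submodule.mem_sup.1 w.2.1
        rw [← hvk, smul_add, hK1 k hk, add_zero]
        exact hcomm r s _ (V.smul_mem t (V.smul_mem c hv))
    obtain ⟨G, hG⟩ := hWI W (LinearMap.codRestrict W F hFW)
    have hG' : ∀ w : W, G w = g ⟨c • (w : M), hWN w⟩ := fun w => hG w
    -- if `r c x ∈ N` then `r x ∈ W` and `G (r x) = g (r c x)`
    have hkey : ∀ (r : R) (hr : r • c • x ∈ N), G (r • x) = g ⟨r • c • x, hr⟩ := by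
      intro r hr
      have h1 : c • r • x = r • c • x + (c * r - r * c) • x := by
        simp only [sub_smul, mul_smul]
        abel
      have h2 : (c * r - r * c) • x ∈ (bigL : Submodule R M) := hcomm c r x hxV
      have h3 : c • r • x ∈ N := by
        rw [h1]
        exact N.add_mem hr (hUN h2)
      have hW : r • x ∈ W := ⟨(le_sup_left : V ≤ V ⊔ K) (V.smul_mem r hxV), h3⟩
      rw [hG' ⟨r • x, hW⟩]
      have h4 : (⟨c • r • x, h3⟩ : N) = ⟨r • c • x, hr⟩ + ⟨(c * r - r * c) • x, hUN h2⟩ :=
        Subtype.ext h1
      change g ⟨c • r • x, h3⟩ = _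
      rw [h4, map_add, hg ⟨(c * r - r * c) • x, hUN h2⟩ h2, add_zero]
    -- the map `r c x ↦ r G x` on `R c x`
    let φ : R →ₗ[R] M := LinearMap.toSpanSingleton R M (c • x)
    let γ : R →ₗ[R] M := LinearMap.toSpanSingleton R M (G x)
    have hker : LinearMap.ker φ ≤ LinearMap.ker γ := by
      intro r hr
      rw [LinearMap.mem_ker, LinearMap.toSpanSingleton_apply] at hr ⊢
      have h0 : r • c • x ∈ N := by
        rw [hr]
        exact N.zero_mem
      rw [← map_smul, hkey r h0]
      have : (⟨r • c • x, h0⟩ : N) = 0 := Subtype.ext hr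
      rw [this, map_zero]
    let h : LinearMap.range φ →ₗ[R] M :=
      ((LinearMap.ker φ).liftQ γ hker) ∘ₗ
        (φ.quotKerEquivRange.symm : LinearMap.range φ →ₗ[R] _)
    have hh : ∀ v : R, h ⟨φ v, v, rfl⟩ = v • G x := by
      intro v
      have h1 : (⟨φ v, v, rfl⟩ : LinearMap.range φ) =
          φ.quotKerEquivRange ((LinearMap.ker φ).mkQ v) := by
        apply Subtype.ext
        simp
      change ((LinearMap.ker φ).liftQ γ hker) (φ.quotKerEquivRange.symm ⟨φ v, v, rfl⟩) = v • G x
      rw [h1, LinearEquiv.symm_apply_apply]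
      simp [γ]
    let gp : M →ₗ.[R] M := ⟨N, g⟩
    let hp : M →ₗ.[R] M := ⟨LinearMap.range φ, h⟩
    have hagree : ∀ (a : gp.domain) (b : hp.domain), (a : M) = b → gp a = hp b := by
      rintro ⟨a, ha⟩ ⟨_, v, rfl⟩ hab
      dsimp at hab
      have hav : v • c • x ∈ N := by
        have h1 : a = v • c • x := hab
        rw [← h1]
        exact ha
      change g ⟨a, ha⟩ = h ⟨φ v, v, rfl⟩
      rw [hh v, ← map_smul, hkey v hav]
      congr 1
      exact Subtype.ext hab
    let s : M →ₗ.[R] M := LinearPMap.sup gp hp hagree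
    have h1 : gp ≤ s := LinearPMap.left_le_sup _ _ _
    have h2 : hp ≤ s := LinearPMap.right_le_sup _ _ _
    have hLs : L ≤ s.domain := by
      refine sup_le (le_trans hUN h1.1) (le_trans ?_ h2.1)
      rw [Submodule.span_singleton_le_iff_mem]
      exact ⟨1, by simp [φ]⟩
    refine ⟨s.toFun ∘ₗ Submodule.inclusion hLs, ?_⟩
    intro y hy hyL
    exact (h1.2 (x := ⟨y, hy⟩) (y := ⟨y, hLs hyL⟩) rfl).symm
  have hLb : L ≤ bigL := le_sSup hrel
  exact hLb ((le_sup_right : _ ≤ L) (Submodule.mem_span_singleton_self _))

/-- The main step: if `R` acts commutatively on `R x` modulo `bigL` then `x` lies in `bigL`. -/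
theorem mem_bigL_of_comm (hWI : WeaklyInjective R M) (hE : EssentialSocle R M) {x : M}
    (hcomm : ∀ r s : R, ∀ v ∈ Submodule.span R {x}, (r * s - s * r) • v ∈ (bigL : Submodule R M)) :
    x ∈ (bigL : Submodule R M) := by
  classical
  let L : Submodule R M := bigL ⊔ Submodule.span R {x}
  have hrel : RelInj L := by
    refine relInj_of hWI le_sup_left ?_
    intro N g hUN hNL hg
    -- every element of `N` is `u + i x`
    have hdec : ∀ n : N, ∃ (u : N) (i : R) (hi : i • x ∈ N), (u : M) ∈ (bigL : Submodule R M) ∧
        n = u + ⟨i • x, hi⟩ := by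
      rintro ⟨n, hn⟩
      obtain ⟨u, hu, y, hy, huy⟩ := Submodule.mem_sup.1 (hNL hn)
      obtain ⟨i, rfl⟩ := Submodule.mem_span_singleton.1 hy
      have hi : i • x ∈ N := by
        have : i • x = n - u := by rw [← huy]; abel
        rw [this]
        exact N.sub_mem hn (hUN hu)
      exact ⟨⟨u, hUN hu⟩, i, hi, hu, Subtype.ext huy.symm⟩
    -- the elements killed by the annihilator of the image of `g`
    let K : Submodule R M :=
      { carrier := {w | ∀ r : R, (∀ n : N, r • g n = 0) → r • w = 0}
        add_mem' := by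
          intro a b ha hb r hr
          rw [smul_add, ha r hr, hb r hr, add_zero]
        zero_mem' := by
          intro r _
          exact smul_zero r
        smul_mem' := by
          intro s a ha r hr
          rw [← mul_smul]
          apply ha
          intro n
          rw [mul_smul, ← map_smul]
          exact hr (s • n) }
    let V : Submodule R M := bigL ⊔ K
    have hgV : ∀ n : N, g n ∈ V := by
      intro n
      exact (le_sup_right : K ≤ V) (fun r hr => hr n)
    by_cases hcase : ∀ n : N, (n : M) ∈ V → g n = 0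
    · -- `g ⊔ 0` on `N + V` is stable
      let gp : M →ₗ.[R] M := ⟨N, g⟩
      let zp : M →ₗ.[R] M := ⟨V, 0⟩
      have hagree : ∀ (a : gp.domain) (b : zp.domain), (a : M) = b → gp a = zp b := by
        rintro ⟨a, ha⟩ ⟨b, hb⟩ hab
        dsimp at hab
        subst hab
        exact hcase ⟨a, ha⟩ hb
      let s : M →ₗ.[R] M := LinearPMap.sup gp zp hagree
      have h1 : gp ≤ s := LinearPMap.left_le_sup _ _ _
      have h2 : zp ≤ s := LinearPMap.right_le_sup _ _ _
      have hst : ∀ y : s.domain, s.toFun y ∈ s.domain := by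
        rintro ⟨y, hy⟩
        obtain ⟨a, ha, b, hb, hab⟩ := Submodule.mem_sup.1 hy
        have h3 : s.toFun ⟨y, hy⟩ = g ⟨a, ha⟩ := by
          have h4 : (⟨y, hy⟩ : s.domain) = ⟨a, h1.1 ha⟩ + ⟨b, h2.1 hb⟩ := Subtype.ext hab.symm
          have h5 : g ⟨a, ha⟩ = s.toFun ⟨a, h1.1 ha⟩ := h1.2 rfl
          have h6 : (0 : M) = s.toFun ⟨b, h2.1 hb⟩ := h2.2 (x := ⟨b, hb⟩) rfl
          rw [h4, map_add, ← h5, ← h6, add_zero]
        rw [h3]
        exact h2.1 (hgV _)
      obtain ⟨t, ht⟩ := hWI s.domain (LinearMap.codRestrict s.domain s.toFun hst)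
      refine ⟨t ∘ₗ L.subtype, ?_⟩
      intro y hy hyL
      have h3 : g ⟨y, hy⟩ = s.toFun ⟨y, h1.1 hy⟩ := h1.2 rfl
      rw [h3]
      exact ht ⟨y, h1.1 hy⟩
    · exfalso
      push Not at hcase
      obtain ⟨n, hnV, hn0⟩ := hcase
      -- a simple submodule of the span of `g n`
      have hspan : Submodule.span R {g n} ≠ ⊥ := by
        rw [Ne, Submodule.span_singleton_eq_bot]
        exact hn0
      obtain ⟨S, hS, hSle⟩ := exists_simple_le hE hspan
      have hatom : IsAtom S := isSimpleModule_iff_isAtom.mp hS
      obtain ⟨y, hyS, hy0⟩ := (Submodule.ne_bot_iff S).1 hatom.1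
      obtain ⟨a, hay⟩ := Submodule.mem_span_singleton.1 (hSle hyS)
      -- `a n = u + c x`
      obtain ⟨u, c, hcN, hu, hdecn⟩ := hdec (a • n)
      have hgc : g ⟨c • x, hcN⟩ = y := by
        have h3 : g (a • n) = g u + g ⟨c • x, hcN⟩ := by rw [hdecn, map_add]
        rw [hg u hu, zero_add, map_smul, hay] at h3
        exact h3.symm
      have hcV : c • x ∈ V := by
        have h3 : c • x = a • (n : M) - u := by
          have h4 := congrArg (Subtype.val) hdecn
          have h5 : a • (n : M) = (u : M) + c • x := h4
          rw [h5]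
          abel
        rw [h3]
        exact V.sub_mem (V.smul_mem a hnV) ((le_sup_left : bigL ≤ V) hu)
      obtain ⟨u', hu', w, hw, huw⟩ := Submodule.mem_sup.1 hcV
      -- `p c` kills the image of `g` when `p y = 0`
      have hpc : ∀ p : R, p • y = 0 → ∀ m : N, (p * c) • g m = 0 := by
        intro p hp m
        obtain ⟨v, i, hi, hv, rfl⟩ := hdec m
        rw [map_add, hg v hv, zero_add, ← map_smul]
        have h2 : ((p * c) * i - i * (p * c)) • x ∈ (bigL : Submodule R M) :=
          hcomm _ _ x (Submodule.mem_span_singleton_self x)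
        have h3 : (p * c) • (⟨i • x, hi⟩ : N) = (i * p) • ⟨c • x, hcN⟩ +
            ⟨((p * c) * i - i * (p * c)) • x, hUN h2⟩ := by
          apply Subtype.ext
          change (p * c) • i • x = (i * p) • c • x + ((p * c) * i - i * (p * c)) • x
          simp only [sub_smul, mul_smul]
          abel
        rw [h3, map_add, hg ⟨((p * c) * i - i * (p * c)) • x, hUN h2⟩ h2, add_zero, map_smul, hgc,
          mul_smul, hp, smul_zero]
      have hcw : c • w ∈ (bigL : Submodule R M) := by
        refine mem_bigL_of_ann hS hyS hy0 ?_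
        intro p hp
        rw [← mul_smul]
        exact hw _ (hpc p hp)
      have hccx : c • c • x ∈ (bigL : Submodule R M) := by
        rw [← huw, smul_add]
        exact Submodule.add_mem _ (Submodule.smul_mem _ c hu') hcw
      have hcx : c • x ∈ (bigL : Submodule R M) := smul_mem_bigL_of_sq hWI hcomm hccx
      apply hy0
      rw [← hgc]
      exact hg _ hcx
  have hLb : L ≤ bigL := le_sSup hrel
  exact hLb ((le_sup_right : _ ≤ L) (Submodule.mem_span_singleton_self x))

/-- maps defined on submodules of `bigL` extend -/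
theorem extend_of_le_bigL (hWI : WeaklyInjective R M) (N N' : Submodule R M)
    (hN : N ≤ (bigL : Submodule R M)) (hN' : N' ≤ N) (f : N' →ₗ[R] M) :
    ∃ g : M →ₗ[R] M, ∀ x : N', g (x : M) = f x := by
  obtain ⟨e, he⟩ := relInj_bigL (⟨N', f⟩ : M →ₗ.[R] M) (hN'.trans hN)
  obtain ⟨g, hg⟩ := extend_bigL hWI e
  refine ⟨g, ?_⟩
  intro x
  rw [← show e ⟨x, hN (hN' x.2)⟩ = f x from he x x.2 (hN (hN' x.2))]
  exact hg ⟨x, hN (hN' x.2)⟩

end Pool.Agent.Lib.MP_6bfc9e_al
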