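import Mathlib
import Pool.Agent.Lib.MP_6bfc9e_al.Comm

/-! Elements which act centrally modulo `bigL`. -/

set_option autoImplicit false

namespace Pool.Agent.Lib.MP_6bfc9e_al

variable {R : Type*} [Ring R] {M : Type*} [AddCommGroup M] [Module R M]

/-- Assume that `c` acts centrally on `R x` modulo `bigL`.  If `c (c x)` lies in `bigL` then
so does `c x`. -/
theorem smul_mem_bigL_of_central (hWI : WeaklyInjective R M) {c : R} {x : M}
    (hc : ∀ r : R, ∀ v ∈ Submodule.span R {x}, (c * r - r * c) • v ∈ (bigL : Submodule R M))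
    (hx : c • c • x ∈ (bigL : Submodule R M)) : c • x ∈ (bigL : Submodule R M) := by
  classical
  set V : Submodule R M := Submodule.span R {x} with hV
  have hxV : x ∈ V := Submodule.mem_span_singleton_self x
  have hCV : ∀ v ∈ V, ∀ t : R, c • t • c • v ∈ (bigL : Submodule R M) := by
    intro v hv t
    obtain ⟨r, rfl⟩ := Submodule.mem_span_singleton.1 hv
    have h1 : c • t • c • r • x = (t * r) • c • c • x + t • c • ((c * r - r * c) • x) +
        t • ((c * r - r * c) • (c • x)) + (c * t - t * c) • (c • r • x) := by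
      simp only [sub_smul, mul_smul, smul_sub]
      abel
    rw [h1]
    refine Submodule.add_mem _ (Submodule.add_mem _ (Submodule.add_mem _
      (Submodule.smul_mem _ _ hx) (Submodule.smul_mem _ t (Submodule.smul_mem _ c (hc r x hxV))))
      (Submodule.smul_mem _ t (hc r _ (V.smul_mem c hxV)))) (hc t _ (V.smul_mem c hv))
  let L : Submodule R M := bigL ⊔ Submodule.span R {c • x}
  have hrel : RelInj L := by
    refine relInj_of hWI le_sup_left ?_
    intro N g hUN hNL hg
    -- the elements whose multiples are killed by `c`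
    let K : Submodule R M :=
      { carrier := {k | ∀ t : R, c • t • k = 0}
        add_mem' := by
          intro a b ha hb t
          rw [smul_add, smul_add, ha, hb, add_zero]
        zero_mem' := by
          intro t
          rw [smul_zero, smul_zero]
        smul_mem' := by
          intro u a ha t
          rw [← mul_smul t u a]
          exact ha (t * u) }
    have hK : ∀ k ∈ K, ∀ t : R, c • t • k = 0 := fun k hk => hk
    have hK1 : ∀ k ∈ K, c • k = 0 := by
      intro k hk
      have := hK k hk 1
      rwa [one_smul] at this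
    have hKcomm : ∀ k ∈ V ⊔ K, ∀ u : R, (c * u - u * c) • k ∈ (bigL : Submodule R M) := by
      intro k hk u
      obtain ⟨v, hv, k', hk', rfl⟩ := Submodule.mem_sup.1 hk
      have h1 : (c * u - u * c) • k' = 0 := by
        rw [sub_smul, mul_smul, mul_smul, hK k' hk', hK1 k' hk', smul_zero, sub_zero]
      rw [smul_add, h1, add_zero]
      exact hc u v hv
    -- `W = {w ∈ V + K : c w ∈ N}`
    let W : Submodule R M :=
      { carrier := {w | w ∈ V ⊔ K ∧ c • w ∈ N}
        add_mem' := by
          rintro a b ⟨ha, ha'⟩ ⟨hb, hb'⟩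
          refine ⟨Submodule.add_mem _ ha hb, ?_⟩
          rw [smul_add]
          exact N.add_mem ha' hb'
        zero_mem' := by
          refine ⟨Submodule.zero_mem _, ?_⟩
          rw [smul_zero]
          exact N.zero_mem
        smul_mem' := by
          rintro u a ⟨ha, ha'⟩
          refine ⟨Submodule.smul_mem _ u ha, ?_⟩
          have h1 : c • u • a = u • c • a + (c * u - u * c) • a := by
            simp only [sub_smul, mul_smul]
            abel
          rw [h1]
          exact N.add_mem (N.smul_mem u ha') (hUN (hKcomm a ha u)) }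
    have hWN : ∀ w : W, c • (w : M) ∈ N := fun w => w.2.2
    let F : W →ₗ[R] M :=
      { toFun := fun w => g ⟨c • (w : M), hWN w⟩
        map_add' := by
          intro a b
          rw [← map_add]
          congr 1
          apply Subtype.ext
          change c • ((a : M) + (b : M)) = c • (a : M) + c • (b : M)
          rw [smul_add]
        map_smul' := by
          intro u a
          have h2 : (c * u - u * c) • (a : M) ∈ N := hUN (hKcomm a a.2.1 u)
          have h3 : g ⟨(c * u - u * c) • (a : M), h2⟩ = 0 := hg _ (hKcomm a a.2.1 u)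
          rw [RingHom.id_apply, ← map_smul, ← add_zero (g (u • _)), ← h3, ← map_add]
          congr 1
          apply Subtype.ext
          change c • u • (a : M) = u • c • (a : M) + (c * u - u * c) • (a : M)
          simp only [sub_smul, mul_smul]
          abel }
    have hF : ∀ w : W, F w = g ⟨c • (w : M), hWN w⟩ := fun w => rfl
    have hKW : K ≤ W := by
      intro k hk
      refine ⟨(le_sup_right : K ≤ V ⊔ K) hk, ?_⟩
      rw [hK1 k hk]
      exact N.zero_mem
    have hFW : ∀ w : W, F w ∈ W := by
      intro w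
      apply hKW
      intro t
      rw [hF, ← map_smul, ← map_smul]
      apply hg
      change c • t • c • (w : M) ∈ (bigL : Submodule R M)
      obtain ⟨v, hv, k, hk, hvk⟩ := Submodule.mem_sup.1 w.2.1
      rw [← hvk, smul_add c v k, hK1 k hk, add_zero]
      exact hCV v hv t
    obtain ⟨G, hG⟩ := hWI W (LinearMap.codRestrict W F hFW)
    have hG' : ∀ w : W, G w = g ⟨c • (w : M), hWN w⟩ := fun w => hG w
    -- if `r c x ∈ N` then `r x ∈ W` and `G (r x) = g (r c x)`
    have hkey : ∀ (r : R) (hr : r • c • x ∈ N), G (r • x) = g ⟨r • c • x, hr⟩ := by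
      intro r hr
      have h1 : c • r • x = r • c • x + (c * r - r * c) • x := by
        simp only [sub_smul, mul_smul]
        abel
      have h2 : (c * r - r * c) • x ∈ (bigL : Submodule R M) := hc r x hxV
      have h3 : c • r • x ∈ N := by
        rw [h1]
        exact N.add_mem hr (hUN h2)
      have hW : r • x ∈ W := ⟨(le_sup_left : V ≤ V ⊔ K) (V.smul_mem r hxV), h3⟩
      rw [hG' ⟨r • x, hW⟩]
      have h4 : (⟨c • r • x, h3⟩ : N) = ⟨r • c • x, hr⟩ + ⟨(c * r - r * c) • x, hUN h2⟩ :=
        Subtype.ext h1
      change g ⟨c • r • x, h3⟩ = _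
      rw [h4, map_add, hg ⟨(c * r - r * c) • x, hUN h2⟩ h2, add_zero]
    -- the map `r c x ↦ r G x` on `R c x`
    let φ : R →ₗ[R] M := LinearMap.toSpanSingleton R M (c • x)
    let γ : R →ₗ[R] M := LinearMap.toSpanSingleton R M (G x)
    have hker : LinearMap.ker φ ≤ LinearMap.ker γ := by
      intro r hr
      rw [LinearMap.mem_ker, LinearMap.toSpanSingleton_apply] at hr ⊢
      have h0 : r • c • x ∈ N := by
        rw [hr]
        exact N.zero_mem
      rw [← map_smul, hkey r h0]
      have : (⟨r • c • x, h0⟩ : N) = 0 := Subtype.ext hr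
      rw [this, map_zero]
    let h : LinearMap.range φ →ₗ[R] M :=
      ((LinearMap.ker φ).liftQ γ hker) ∘ₗ
        (φ.quotKerEquivRange.symm : LinearMap.range φ →ₗ[R] _)
    have hh : ∀ v : R, h ⟨φ v, v, rfl⟩ = v • G x := by
      intro v
      have h1 : (⟨φ v, v, rfl⟩ : LinearMap.range φ) =
          φ.quotKerEquivRange ((LinearMap.ker φ).mkQ v) := by
        apply Subtype.ext
        simp
      change ((LinearMap.ker φ).liftQ γ hker) (φ.quotKerEquivRange.symm ⟨φ v, v, rfl⟩) = v • G x
      rw [h1, LinearEquiv.symm_apply_apply]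
      simp [γ]
    let gp : M →ₗ.[R] M := ⟨N, g⟩
    let hp : M →ₗ.[R] M := ⟨LinearMap.range φ, h⟩
    have hagree : ∀ (a : gp.domain) (b : hp.domain), (a : M) = b → gp a = hp b := by
      rintro ⟨a, ha⟩ ⟨_, v, rfl⟩ hab
      dsimp at hab
      have hav : v • c • x ∈ N := by
        have h1 : a = v • c • x := hab
        rw [← h1]
        exact ha
      change g ⟨a, ha⟩ = h ⟨φ v, v, rfl⟩
      rw [hh v, ← map_smul, hkey v hav]
      congr 1
      exact Subtype.ext hab
    let s : M →ₗ.[R] M := LinearPMap.sup gp hp hagree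
    have h1 : gp ≤ s := LinearPMap.left_le_sup _ _ _
    have h2 : hp ≤ s := LinearPMap.right_le_sup _ _ _
    have hLs : L ≤ s.domain := by
      refine sup_le (le_trans hUN h1.1) (le_trans ?_ h2.1)
      rw [Submodule.span_singleton_le_iff_mem]
      exact ⟨1, by simp [φ]⟩
    refine ⟨s.toFun ∘ₗ Submodule.inclusion hLs, ?_⟩
    intro y hy hyL
    exact (h1.2 (x := ⟨y, hy⟩) (y := ⟨y, hLs hyL⟩) rfl).symm
  have hLb : L ≤ bigL := le_sSup hrel
  exact hLb ((le_sup_right : _ ≤ L) (Submodule.mem_span_singleton_self _))

/-- The main step: assume that every submodule of `R x` which is not in `bigL` contains, modulo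
`bigL`, a multiple `c x` with `c` acting centrally on `R x` modulo `bigL`; and that the annihilator
of each simple submodule which is a subfactor of `R x` modulo `bigL` kills only elements of `bigL`.
Then `x` lies in `bigL`. -/
theorem mem_bigL_of_star (hWI : WeaklyInjective R M) (hE : EssentialSocle R M) {x : M}
    (hstar : ∀ n : M, n ∉ (bigL : Submodule R M) → n ∈ bigL ⊔ Submodule.span R {x} →
      ∃ c : R, (∀ r : R, ∀ v ∈ Submodule.span R {x},
        (c * r - r * c) • v ∈ (bigL : Submodule R M)) ∧ c • x ∉ (bigL : Submodule R M) ∧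
        c • x ∈ bigL ⊔ Submodule.span R {n})
    (hart : ∀ (S : Submodule R M), IsSimpleModule R S → ∀ y ∈ S, y ≠ 0 →
      (∀ r : R, (∀ v ∈ Submodule.span R {x}, r • v ∈ (bigL : Submodule R M)) → r • y = 0) →
      ∀ w : M, (∀ p : R, (∀ t : R, p • t • y = 0) → p • w = 0) → w ∈ (bigL : Submodule R M)) :
    x ∈ (bigL : Submodule R M) := by
  classical
  let L : Submodule R M := bigL ⊔ Submodule.span R {x}
  have hxV : x ∈ Submodule.span R {x} := Submodule.mem_span_singleton_self x
  have hrel : RelInj L := by
    refine relInj_of hWI le_sup_left ?_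
    intro N g hUN hNL hg
    -- every element of `N` is `u + i x`
    have hdec : ∀ n : N, ∃ (u : N) (i : R) (hi : i • x ∈ N), (u : M) ∈ (bigL : Submodule R M) ∧
        n = u + ⟨i • x, hi⟩ := by
      rintro ⟨n, hn⟩
      obtain ⟨u, hu, y, hy, huy⟩ := Submodule.mem_sup.1 (hNL hn)
      obtain ⟨i, rfl⟩ := Submodule.mem_span_singleton.1 hy
      have hi : i • x ∈ N := by
        have : i • x = n - u := by rw [← huy]; abel
        rw [this]
        exact N.sub_mem hn (hUN hu)
      exact ⟨⟨u, hUN hu⟩, i, hi, hu, Subtype.ext huy.symm⟩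
    -- the elements killed by the annihilator of the image of `g`
    let K : Submodule R M :=
      { carrier := {w | ∀ r : R, (∀ n : N, r • g n = 0) → r • w = 0}
        add_mem' := by
          intro a b ha hb r hr
          rw [smul_add, ha r hr, hb r hr, add_zero]
        zero_mem' := by
          intro r _
          exact smul_zero r
        smul_mem' := by
          intro s a ha r hr
          rw [← mul_smul]
          apply ha
          intro n
          rw [mul_smul, ← map_smul]
          exact hr (s • n) }
    let V : Submodule R M := bigL ⊔ K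
    have hgV : ∀ n : N, g n ∈ V := by
      intro n
      exact (le_sup_right : K ≤ V) (fun r hr => hr n)
    by_cases hcase : ∀ n : N, (n : M) ∈ V → g n = 0
    · -- `g ⊔ 0` on `N + V` is stable
      let gp : M →ₗ.[R] M := ⟨N, g⟩
      let zp : M →ₗ.[R] M := ⟨V, 0⟩
      have hagree : ∀ (a : gp.domain) (b : zp.domain), (a : M) = b → gp a = zp b := by
        rintro ⟨a, ha⟩ ⟨b, hb⟩ hab
        dsimp at hab
        subst hab
        exact hcase ⟨a, ha⟩ hb
      let s : M →ₗ.[R] M := LinearPMap.sup gp zp hagree
      have h1 : gp ≤ s := LinearPMap.left_le_sup _ _ _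
      have h2 : zp ≤ s := LinearPMap.right_le_sup _ _ _
      have hst : ∀ y : s.domain, s.toFun y ∈ s.domain := by
        rintro ⟨y, hy⟩
        obtain ⟨a, ha, b, hb, hab⟩ := Submodule.mem_sup.1 hy
        have h3 : s.toFun ⟨y, hy⟩ = g ⟨a, ha⟩ := by
          have h4 : (⟨y, hy⟩ : s.domain) = ⟨a, h1.1 ha⟩ + ⟨b, h2.1 hb⟩ := Subtype.ext hab.symm
          have h5 : g ⟨a, ha⟩ = s.toFun ⟨a, h1.1 ha⟩ := h1.2 rfl
          have h6 : (0 : M) = s.toFun ⟨b, h2.1 hb⟩ := h2.2 (x := ⟨b, hb⟩) rfl
          rw [h4, map_add, ← h5, ← h6, add_zero]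
        rw [h3]
        exact h2.1 (hgV _)
      obtain ⟨t, ht⟩ := hWI s.domain (LinearMap.codRestrict s.domain s.toFun hst)
      refine ⟨t ∘ₗ L.subtype, ?_⟩
      intro y hy hyL
      have h3 : g ⟨y, hy⟩ = s.toFun ⟨y, h1.1 hy⟩ := h1.2 rfl
      rw [h3]
      exact ht ⟨y, h1.1 hy⟩
    · exfalso
      push Not at hcase
      obtain ⟨n, hnV, hn0⟩ := hcase
      -- a simple submodule of the span of `g n`
      have hspan : Submodule.span R {g n} ≠ ⊥ := by
        rw [Ne, Submodule.span_singleton_eq_bot]
        exact hn0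
      obtain ⟨S, hS, hSle⟩ := exists_simple_le hE hspan
      have hatom : IsAtom S := isSimpleModule_iff_isAtom.mp hS
      obtain ⟨y, hyS, hy0⟩ := (Submodule.ne_bot_iff S).1 hatom.1
      obtain ⟨a, hay⟩ := Submodule.mem_span_singleton.1 (hSle hyS)
      have hgan : g (a • n) = y := by rw [map_smul, hay]
      have hanU : ((a • n : N) : M) ∉ (bigL : Submodule R M) := by
        intro h
        apply hy0
        rw [← hgan]
        exact hg _ h
      -- the central multiple
      obtain ⟨c, hc, hcx, hcn⟩ := hstar (a • n : N) hanU (hNL (a • n : N).2)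
      obtain ⟨u1, hu1, b', hb', hub⟩ := Submodule.mem_sup.1 hcn
      obtain ⟨b, rfl⟩ := Submodule.mem_span_singleton.1 hb'
      have hbN : b • ((a • n : N) : M) ∈ N := N.smul_mem b (a • n : N).2
      have hcN : c • x ∈ N := by
        rw [← hub]
        exact N.add_mem (hUN hu1) hbN
      have hcV : c • x ∈ V := by
        rw [← hub]
        exact V.add_mem ((le_sup_left : bigL ≤ V) hu1) (V.smul_mem b (V.smul_mem a hnV))
      have hgc : g ⟨c • x, hcN⟩ = b • y := by
        have h3 : (⟨c • x, hcN⟩ : N) = ⟨u1, hUN hu1⟩ + b • (a • n) := Subtype.ext hub.symm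
        rw [h3, map_add, hg ⟨u1, hUN hu1⟩ hu1, zero_add, map_smul, hgan]
      obtain ⟨u', hu', w, hw, huw⟩ := Submodule.mem_sup.1 hcV
      -- `p c` kills the image of `g` when `p R y = 0`
      have hpc : ∀ p : R, (∀ t : R, p • t • y = 0) → ∀ m : N, (p * c) • g m = 0 := by
        intro p hp m
        obtain ⟨v, i, hi, hv, rfl⟩ := hdec m
        rw [map_add, hg v hv, zero_add, ← map_smul]
        have h2 : (c * i - i * c) • x ∈ (bigL : Submodule R M) := hc i x hxV
        have h3 : (p * c) • (⟨i • x, hi⟩ : N) = (p * i) • ⟨c • x, hcN⟩ +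
            p • ⟨(c * i - i * c) • x, hUN h2⟩ := by
          apply Subtype.ext
          change (p * c) • i • x = (p * i) • c • x + p • (c * i - i * c) • x
          simp only [sub_smul, mul_smul, smul_sub]
          abel
        rw [h3, map_add, map_smul g p, hg ⟨(c * i - i * c) • x, hUN h2⟩ h2, smul_zero, add_zero,
          map_smul, hgc, mul_smul, ← mul_smul i b y]
        exact hp (i * b)
      -- `y` is a subfactor of `R x`
      have hyx : ∀ r : R, (∀ v ∈ Submodule.span R {x}, r • v ∈ (bigL : Submodule R M)) →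
          r • y = 0 := by
        intro r hr
        obtain ⟨v, i, hi, hv, hdn⟩ := hdec (a • n)
        rw [← hgan, hdn, map_add, hg v hv, zero_add, ← map_smul]
        exact hg _ (hr _ (Submodule.smul_mem _ i hxV))
      have hcw : c • w ∈ (bigL : Submodule R M) := by
        refine hart S hS y hyS hy0 hyx (c • w) ?_
        intro p hp
        rw [← mul_smul]
        exact hw _ (hpc p hp)
      have hccx : c • c • x ∈ (bigL : Submodule R M) := by
        rw [← huw, smul_add]
        exact Submodule.add_mem _ (Submodule.smul_mem _ c hu') hcw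
      exact hcx (smul_mem_bigL_of_central hWI hc hccx)
  have hLb : L ≤ bigL := le_sSup hrel
  exact hLb ((le_sup_right : _ ≤ L) (Submodule.mem_span_singleton_self x))

end Pool.Agent.Lib.MP_6bfc9e_al
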