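import Mathlib
import Pool.Agent.Lib.MP_6bfc9e_al.Basic

set_option autoImplicit false

namespace Pool.Agent.Lib.MP_6bfc9e_al

variable {R : Type*} [Ring R] {M : Type*} [AddCommGroup M] [Module R M]

/-- The basic step: an extension `g` of `f` on `K` can be improved to one on `(f - g)⁻¹ K`. -/
theorem step (hWI : WeaklyInjective R M) {N : Submodule R M} (f : N →ₗ[R] M)
    (K : Submodule R M) (hKN : K ≤ N) (g : M →ₗ[R] M)
    (hg : ∀ x : N, (x : M) ∈ K → g x = f x) :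
    ∃ (K' : Submodule R M) (g' : M →ₗ[R] M), K ≤ K' ∧ K' ≤ N ∧
      (∀ x : N, (x : M) ∈ K' → g' x = f x) ∧
      (∀ x : N, f x - g x ∈ K → (x : M) ∈ K') := by
  classical
  let d : N →ₗ[R] M := f - g ∘ₗ N.subtype
  have hd : ∀ x : N, d x = f x - g x := fun x => rfl
  let K' : Submodule R M := (K.comap d).map N.subtype
  have hmem : ∀ x : N, (x : M) ∈ K' ↔ f x - g x ∈ K := by
    intro x
    constructor
    · rintro ⟨y, hy, hyx⟩
      have : y = x := Subtype.ext hyx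
      subst this
      exact hy
    · intro h
      exact ⟨x, h, rfl⟩
  have hK'N : K' ≤ N := by
    rintro _ ⟨y, _, rfl⟩
    exact y.2
  have hKK' : K ≤ K' := by
    intro y hy
    have := (hmem ⟨y, hKN hy⟩).2 (by rw [← hg ⟨y, hKN hy⟩ hy, sub_self]; exact K.zero_mem)
    exact this
  -- the endomorphism of K'
  let e : K' →ₗ[R] K' := LinearMap.codRestrict K' (d ∘ₗ Submodule.inclusion hK'N) (by
    intro x
    apply hKK'
    exact (hmem ⟨x, hK'N x.2⟩).1 x.2)
  obtain ⟨g1, hg1⟩ := hWI K' e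
  refine ⟨K', g + g1, hKK', hK'N, ?_, fun x hx => (hmem x).2 hx⟩
  intro x hx
  have h1 := hg1 ⟨x, hx⟩
  have h2 : ((e ⟨x, hx⟩ : K') : M) = f x - g x := rfl
  rw [h2] at h1
  change g x + g1 x = f x
  rw [h1]
  abel

/-- If extendability of the restrictions of `f` passes to unions of chains then `f` extends. -/
theorem extendable_of_chain (hWI : WeaklyInjective R M) (hE : EssentialSocle R M)
    {N : Submodule R M} (hN : Socle R M ≤ N) (f : N →ₗ[R] M)
    (h0 : ∃ g : M →ₗ[R] M, ∀ x : N, (x : M) ∈ Socle R M → g x = f x)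
    (hchain : ∀ c : Set (Submodule R M), c.Nonempty → IsChain (· ≤ ·) c →
      (∀ K ∈ c, Socle R M ≤ K ∧ K ≤ N) →
      (∀ K ∈ c, ∃ g : M →ₗ[R] M, ∀ x : N, (x : M) ∈ K → g x = f x) →
      ∃ g : M →ₗ[R] M, ∀ x : N, (x : M) ∈ sSup c → g x = f x) :
    ∃ g : M →ₗ[R] M, ∀ x : N, g (x : M) = f x := by
  classical
  let F : Set (Submodule R M) :=
    {K | (Socle R M ≤ K ∧ K ≤ N) ∧ ∃ g : M →ₗ[R] M, ∀ x : N, (x : M) ∈ K → g x = f x}
  obtain ⟨K, hSK, hKmax⟩ := zorn_le_nonempty₀ F (by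
    intro c hcF hc y hy
    refine ⟨sSup c, ⟨⟨?_, ?_⟩, ?_⟩, fun z hz => le_sSup hz⟩
    · exact le_trans (hcF hy).1.1 (le_sSup hy)
    · exact sSup_le fun z hz => (hcF hz).1.2
    · exact hchain c ⟨y, hy⟩ hc (fun K hK => (hcF hK).1) (fun K hK => (hcF hK).2))
    (Socle R M) ⟨⟨le_rfl, hN⟩, h0⟩
  obtain ⟨⟨hS, hKN⟩, g, hg⟩ := hKmax.prop
  obtain ⟨K', g', hKK', hK'N, hg', hback⟩ := step hWI f K hKN g hg
  have hK'F : K' ∈ F := ⟨⟨le_trans hS hKK', hK'N⟩, g', hg'⟩
  have hle : K' ≤ K := hKmax.le_of_ge hK'F hKK'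
  -- the range of f - g meets the socle trivially
  let d : N →ₗ[R] M := f - g ∘ₗ N.subtype
  have hrange : LinearMap.range d = ⊥ := by
    apply eq_bot_of_inf_socle hE
    rw [eq_bot_iff]
    rintro y ⟨⟨x, rfl⟩, hy⟩
    have hx : (x : M) ∈ K := hle (hback x (hS hy))
    have : d x = f x - g x := rfl
    rw [this, hg x hx, sub_self]
    exact Submodule.zero_mem _
  refine ⟨g, fun x => ?_⟩
  have : d x ∈ LinearMap.range d := ⟨x, rfl⟩
  rw [hrange, Submodule.mem_bot] at this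
  have h2 : d x = f x - g x := rfl
  rw [h2] at this
  exact (sub_eq_zero.mp this).symm

/-- every map on a submodule containing the socle agrees on the socle with an endomorphism -/
theorem exists_agree_socle (hWI : WeaklyInjective R M) {N : Submodule R M}
    (hN : Socle R M ≤ N) (f : N →ₗ[R] M) :
    ∃ g : M →ₗ[R] M, ∀ x : N, (x : M) ∈ Socle R M → g x = f x := by
  classical
  let e : Socle R M →ₗ[R] Socle R M :=
    LinearMap.codRestrict (Socle R M) (f ∘ₗ Submodule.inclusion hN) (by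
      intro x
      exact map_socle_le f ⟨x, hN x.2⟩ x.2 hN)
  obtain ⟨g, hg⟩ := hWI (Socle R M) e
  refine ⟨g, fun x hx => ?_⟩
  rw [hg ⟨x, hx⟩]
  rfl

/-- Reduction: it suffices to extend the maps defined on submodules that contain the socle. -/
theorem quasi_of_contains_socle
    (h : ∀ (N : Submodule R M), Socle R M ≤ N → ∀ f : N →ₗ[R] M,
      ∃ g : M →ₗ[R] M, ∀ x : N, g (x : M) = f x) : QuasiInjective R M := by
  intro N f
  obtain ⟨F, hF, hmax⟩ := exists_maximal (⟨N, f⟩ : M →ₗ.[R] M)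
  obtain ⟨g, hg⟩ := h F.domain (socle_le_domain hmax) F.toFun
  refine ⟨g, fun x => ?_⟩
  have h1 : N ≤ F.domain := hF.1
  have h2 := hF.2 (x := x) (y := ⟨x, h1 x.2⟩) rfl
  rw [hg ⟨x, h1 x.2⟩]
  exact h2.symm

/-- Reduction: it suffices to extend maps that vanish on the socle. -/
theorem quasi_of_kills_socle (hWI : WeaklyInjective R M)
    (h : ∀ (N : Submodule R M), Socle R M ≤ N → ∀ f : N →ₗ[R] M,
      (∀ x : N, (x : M) ∈ Socle R M → f x = 0) →
      ∃ g : M →ₗ[R] M, ∀ x : N, g (x : M) = f x) : QuasiInjective R M := by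
  apply quasi_of_contains_socle
  intro N hN f
  obtain ⟨g0, hg0⟩ := exists_agree_socle hWI hN f
  obtain ⟨g, hg⟩ := h N hN (f - g0 ∘ₗ N.subtype) (by
    intro x hx
    change f x - g0 x = 0
    rw [hg0 x hx, sub_self])
  refine ⟨g0 + g, fun x => ?_⟩
  change g0 x + g x = f x
  rw [hg x]
  change g0 x + (f x - g0 x) = f x
  abel

end Pool.Agent.Lib.MP_6bfc9e_al
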