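import Mathlib

/-! An exchange argument: over a ring which acts on `X` through a finitely generated module over a
commutative ring `Z` of scalars, and such that `z z x = 0` implies `z x = 0`, there is `x ≠ 0` such
that `Z x` meets every nonzero submodule of `R x`. -/

set_option autoImplicit false

namespace Pool.Agent.Lib.MP_6bfc9e_al

variable {R : Type*} [Ring R] {Z : Type*} [CommRing Z] {X : Type*} [AddCommGroup X] [Module R X]
  [Module Z X] [SMulCommClass Z R X] [SMulCommClass R Z X]

/-- `d R x` lies in the `Z`-span of the elements `ρ j x`, `j ∈ J`, and `d x ≠ 0`. -/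
def GenBy {m : ℕ} (ρ : Fin m → R) (x : X) (d : Z) (J : Finset (Fin m)) : Prop :=
  d • x ≠ 0 ∧ ∀ r : R, ∃ a : Fin m → Z, d • r • x = ∑ j ∈ J, a j • ρ j • x

omit [SMulCommClass Z R X] [SMulCommClass R Z X] in
theorem GenBy.indep {m : ℕ} {ρ : Fin m → R} {x : X} {d : Z} {J : Finset (Fin m)}
    (h : GenBy ρ x d J) (hmin : ∀ (d' : Z) (J' : Finset (Fin m)), GenBy ρ x d' J' →
      J.card ≤ J'.card) (a : Fin m → Z) (ha : ∑ j ∈ J, a j • ρ j • x = 0) :
    ∀ j ∈ J, a j • d • x = 0 := by
  classical
  intro i hi
  by_contra hne
  have hG : GenBy ρ x (a i * d) (J.erase i) := by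
    refine ⟨by rwa [mul_smul], ?_⟩
    intro r
    obtain ⟨b, hb⟩ := h.2 r
    refine ⟨fun j => a i * b j - b i * a j, ?_⟩
    have h1 : a i • ρ i • x = - ∑ j ∈ J.erase i, a j • ρ j • x := by
      rw [← Finset.add_sum_erase J _ hi] at ha
      exact eq_neg_of_add_eq_zero_left ha
    have h2 : a i • ∑ j ∈ J, b j • ρ j • x =
        b i • (a i • ρ i • x) + ∑ j ∈ J.erase i, (a i * b j) • ρ j • x := by
      rw [← Finset.add_sum_erase J _ hi, smul_add, smul_comm (a i) (b i), Finset.smul_sum]
      simp only [mul_smul]
    rw [mul_smul, hb, h2, h1, smul_neg, Finset.smul_sum]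
    simp only [sub_smul, Finset.sum_sub_distrib, mul_smul]
    abel
  have h3 := hmin _ _ hG
  have h4 := Finset.card_erase_lt_of_mem hi
  omega

theorem exists_star {m : ℕ} (ρ : Fin m → R)
    (hρ : ∀ r : R, ∃ a : Fin m → Z, ∀ x : X, r • x = ∑ j, a j • ρ j • x)
    (hact : ∀ z : Z, ∃ c : R, ∀ x : X, z • x = c • x)
    (hred : ∀ (z : Z) (x : X), z • z • x = 0 → z • x = 0) (hX : ∃ x : X, x ≠ 0) :
    ∃ x : X, x ≠ 0 ∧ ∀ n ∈ Submodule.span R {x}, n ≠ 0 →
      ∃ z : Z, z • x ≠ 0 ∧ z • x ∈ Submodule.span R {n} := by
  classical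
  -- every nonzero element is generated by all `ρ j`
  have hgen : ∀ x : X, x ≠ 0 → GenBy ρ x (1 : Z) Finset.univ := by
    intro x hx
    refine ⟨by rwa [one_smul], ?_⟩
    intro r
    obtain ⟨a, ha⟩ := hρ r
    exact ⟨a, by rw [one_smul]; exact ha x⟩
  -- the minimal rank
  have hex : ∃ k : ℕ, ∃ (x : X) (d : Z) (J : Finset (Fin m)), GenBy ρ x d J ∧ J.card = k := by
    obtain ⟨x, hx⟩ := hX
    exact ⟨_, x, 1, Finset.univ, hgen x hx, rfl⟩
  obtain ⟨x, d, J, hG, hJ⟩ := Nat.find_spec hex
  set k := Nat.find hex with hk
  have hmin : ∀ (x' : X) (d' : Z) (J' : Finset (Fin m)), GenBy ρ x' d' J' → k ≤ J'.card := by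
    intro x' d' J' h'
    exact Nat.find_min' hex ⟨x', d', J', h', rfl⟩
  have hindx := hG.indep (fun d' J' h' => by rw [hJ]; exact hmin x d' J' h')
  refine ⟨d • x, hG.1, ?_⟩
  intro n hn hn0
  obtain ⟨t, htn⟩ := Submodule.mem_span_singleton.1 hn
  have htn' : n = d • t • x := by rw [← htn, smul_comm]
  -- the minimal rank of `n`
  have hexn : ∃ k' : ℕ, ∃ (d' : Z) (J' : Finset (Fin m)), GenBy ρ n d' J' ∧ J'.card = k' :=
    ⟨_, 1, Finset.univ, hgen n hn0, rfl⟩
  obtain ⟨e, Jn, hGn, hJn⟩ := Nat.find_spec hexn
  have hminn : ∀ (d' : Z) (J' : Finset (Fin m)), GenBy ρ n d' J' → Jn.card ≤ J'.card := by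
    intro d' J' h'
    rw [hJn]
    exact Nat.find_min' hexn ⟨d', J', h', rfl⟩
  have hindn := hGn.indep hminn
  have hkJn : k ≤ Jn.card := hmin n e Jn hGn
  -- `d` acts injectively on the multiples of `n`
  have hdn : ∀ (z : Z), d • z • n = 0 → z • n = 0 := by
    intro z hz
    rw [htn'] at hz ⊢
    have h1 : d • d • (z • t • x) = 0 := by
      rw [← hz, smul_comm z d]
    have h2 := hred d _ h1
    rw [smul_comm z d]
    exact h2
  -- the exchange
  have hE : ∀ i : ℕ, i ≤ k → ∃ (L I : Finset (Fin m)) (z : Z), L ⊆ Jn ∧ I ⊆ J ∧ L.card = i ∧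
      I.card = k - i ∧ z • e • n ≠ 0 ∧ ∀ r : R, ∃ a b : Fin m → Z,
        z • r • x = ∑ l ∈ L, a l • ρ l • n + ∑ j ∈ I, b j • ρ j • x := by
    intro i
    induction i with
    | zero =>
      intro _
      refine ⟨∅, J, d, Finset.empty_subset _, Finset.Subset.refl _, rfl, by rw [hJ]; rfl, ?_, ?_⟩
      · intro h0
        exact hGn.1 (hdn e h0)
      · intro r
        obtain ⟨a, ha⟩ := hG.2 r
        exact ⟨0, a, by rw [ha, Finset.sum_empty, zero_add]⟩
    | succ i ih =>
      intro hi
      obtain ⟨L, I, z, hL, hI, hLc, hIc, hz, hzr⟩ := ih (by omega)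
      have hlt : L.card < Jn.card := by omega
      obtain ⟨l0, hl0, hl0L⟩ := Finset.exists_mem_notMem_of_card_lt_card hlt
      obtain ⟨a, b, hab⟩ := hzr (ρ l0 * t)
      -- `z d ρ l0 t x = z ρ l0 n`
      have hv : z • ρ l0 • n = ∑ l ∈ L, (d * a l) • ρ l • n + ∑ j ∈ I, (d * b j) • ρ j • x := by
        have h1 : z • ρ l0 • n = d • z • (ρ l0 * t) • x := by
          rw [htn', mul_smul, smul_comm (ρ l0) d, smul_comm z d]
        rw [h1, hab, smul_add, Finset.smul_sum, Finset.smul_sum]
        simp only [mul_smul]
      by_cases hcase : ∃ j0 ∈ I, (d * b j0) • z • e • n ≠ 0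
      · obtain ⟨j0, hj0, hj0n⟩ := hcase
        refine ⟨insert l0 L, I.erase j0, d * b j0 * z, ?_, ?_, ?_, ?_, ?_, ?_⟩
        · exact Finset.insert_subset hl0 hL
        · exact (Finset.erase_subset _ _).trans hI
        · rw [Finset.card_insert_of_notMem hl0L, hLc]
        · rw [Finset.card_erase_of_mem hj0, hIc]
          omega
        · rwa [mul_smul]
        · intro r
          obtain ⟨α, β, hαβ⟩ := hzr r
          refine ⟨fun l => if l = l0 then β j0 * z else d * b j0 * α l - β j0 * (d * a l),
            fun j => d * b j0 * β j - β j0 * (d * b j), ?_⟩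
          have h1 : (d * b j0) • ρ j0 • x = z • ρ l0 • n - ∑ l ∈ L, (d * a l) • ρ l • n -
              ∑ j ∈ I.erase j0, (d * b j) • ρ j • x := by
            rw [hv, ← Finset.add_sum_erase I _ hj0]
            abel
          have h2 : ∑ l ∈ insert l0 L, (if l = l0 then β j0 * z else
              d * b j0 * α l - β j0 * (d * a l)) • ρ l • n = (β j0 * z) • ρ l0 • n +
              ∑ l ∈ L, (d * b j0 * α l - β j0 * (d * a l)) • ρ l • n := by
            rw [Finset.sum_insert hl0L, if_pos rfl]
            congr 1
            refine Finset.sum_congr rfl ?_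
            intro l hl
            rw [if_neg]
            rintro rfl
            exact hl0L hl
          rw [h2, mul_smul (d * b j0) z, hαβ, ← Finset.add_sum_erase I _ hj0, smul_add, smul_add,
            smul_comm (d * b j0) (β j0), h1]
          simp only [sub_smul, Finset.sum_sub_distrib, mul_smul, smul_sub, Finset.smul_sum]
          abel
      · exfalso
        push Not at hcase
        -- `c (z v - ∑ ...) = 0` for `c = b j z e`
        have hLI : ∑ j ∈ I, (d * b j) • ρ j • x =
            z • ρ l0 • n - ∑ l ∈ L, (d * a l) • ρ l • n := by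
          rw [hv]
          abel
        have hkill : ∀ j0 ∈ I, (d * b j0 * z * e) • ∑ j ∈ I, (d * b j) • ρ j • x = 0 := by
          intro j0 hj0
          have h0 : (d * b j0 * z * e) • n = 0 := by
            rw [mul_smul, mul_smul]
            exact hcase j0 hj0
          have h1 : ∀ (w : Z) (s : R), (d * b j0 * z * e) • w • s • n = 0 := by
            intro w s
            rw [smul_comm _ w, smul_comm _ s, h0, smul_zero, smul_zero]
          rw [hLI, smul_sub, h1, zero_sub, Finset.smul_sum, Finset.sum_eq_zero, neg_zero]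
          intro l _
          exact h1 _ _
        have hbx : ∀ j0 ∈ I, (d * b j0 * z * e) • d • x = 0 := by
          intro j0 hj0
          have h1 := hindx (fun j => if j ∈ I then d * b j0 * z * e * (d * b j) else 0) (by
            have h2 : ∑ j ∈ J, (if j ∈ I then d * b j0 * z * e * (d * b j) else 0) • ρ j • x =
                ∑ j ∈ I, (d * b j0 * z * e * (d * b j)) • ρ j • x := by
              rw [← Finset.sum_subset hI]
              · refine Finset.sum_congr rfl ?_
                intro j hj
                rw [if_pos hj]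
              · intro j _ hj
                rw [if_neg hj, zero_smul]
            rw [h2, ← hkill j0 hj0, Finset.smul_sum]
            simp only [mul_smul]) j0 (hI hj0)
          rw [if_pos hj0] at h1
          apply hred
          have h3 : (d * b j0 * z * e) • (d * b j0 * z * e) • d • x =
              (z * e) • (d * b j0 * z * e * (d * b j0)) • d • x := by
            simp only [smul_smul]
            congr 1
            ring
          rw [h3, h1, smul_zero]
        -- the relation between the `ρ l n`
        have hrel : (z * e * d) • (z • ρ l0 • n - ∑ l ∈ L, (d * a l) • ρ l • n) = 0 := by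
          rw [← hLI, Finset.smul_sum, Finset.sum_eq_zero]
          intro j hj
          have h1 : (z * e * d) • (d * b j) • ρ j • x = ρ j • (d * b j * z * e) • d • x := by
            rw [smul_comm (ρ j), smul_comm (ρ j)]
            simp only [smul_smul]
            congr 1
            ring
          rw [h1, hbx j hj, smul_zero]
        have h1 := hindn (fun l => if l = l0 then z * e * d * z else
          if l ∈ L then - (z * e * d * (d * a l)) else 0) (by
            have h2 : ∑ l ∈ Jn, (if l = l0 then z * e * d * z else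
                if l ∈ L then - (z * e * d * (d * a l)) else 0) • ρ l • n =
                ∑ l ∈ insert l0 L, (if l = l0 then z * e * d * z else
                if l ∈ L then - (z * e * d * (d * a l)) else 0) • ρ l • n := by
              rw [← Finset.sum_subset (Finset.insert_subset hl0 hL)]
              intro l _ hl
              rw [Finset.mem_insert, not_or] at hl
              rw [if_neg hl.1, if_neg hl.2, zero_smul]
            have h3 : ∑ l ∈ L, (if l = l0 then z * e * d * z else
                if l ∈ L then - (z * e * d * (d * a l)) else 0) • ρ l • n =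
                ∑ l ∈ L, (- (z * e * d * (d * a l))) • ρ l • n := by
              refine Finset.sum_congr rfl ?_
              intro l hl
              rw [if_neg, if_pos hl]
              rintro rfl
              exact hl0L hl
            rw [h2, Finset.sum_insert hl0L, if_pos rfl, h3, ← hrel, smul_sub, Finset.smul_sum,
              sub_eq_add_neg, ← Finset.sum_neg_distrib]
            simp only [mul_smul, neg_smul]) l0 hl0
        rw [if_pos rfl] at h1
        have h2 : (z * e * d) • n = 0 := by
          apply hred
          have h3 : (z * e * d) • (z * e * d) • n = d • (z * e * d * z) • e • n := by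
            simp only [smul_smul]
            congr 1
            ring
          rw [h3, h1, smul_zero]
        apply hz
        have h4 : d • (z * e) • n = 0 := by
          rw [smul_smul, mul_comm d (z * e)]
          exact h2
        have h5 := hdn _ h4
        rwa [mul_smul] at h5
  obtain ⟨L, I, z, hL, hI, hLc, hIc, hz, hzr⟩ := hE k le_rfl
  have hI0 : I = ∅ := by
    rw [← Finset.card_eq_zero, hIc, Nat.sub_self]
  subst hI0
  obtain ⟨a, b, hab⟩ := hzr 1
  rw [Finset.sum_empty, add_zero, one_smul] at hab
  refine ⟨z, ?_, ?_⟩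
  · intro h0
    apply hz
    have h1 : z • e • n = e • t • z • d • x := by
      rw [← htn, smul_comm z e, smul_comm z t]
    rw [h1, h0, smul_zero, smul_zero]
  · have h1 : z • d • x = ∑ l ∈ L, (d * a l) • ρ l • n := by
      rw [smul_comm, hab, Finset.smul_sum]
      simp only [mul_smul]
    rw [h1]
    refine Submodule.sum_mem _ ?_
    intro l _
    obtain ⟨c, hc⟩ := hact (d * a l)
    rw [hc]
    exact Submodule.smul_mem _ _ (Submodule.smul_mem _ _ (Submodule.mem_span_singleton_self n))

end Pool.Agent.Lib.MP_6bfc9e_al
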