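import Mathlib
import Pool.Agent.Lib.MP_6bfc9e_al.Center
import Pool.Agent.Lib.MP_6bfc9e_al.Star

/-! Layers on which the ring acts through a finitely generated module over its centre. -/

set_option autoImplicit false

namespace Pool.Agent.Lib.MP_6bfc9e_al

variable {R : Type*} [Ring R] {M : Type*} [AddCommGroup M] [Module R M]

/-- The ring `R / ann(B/A)` is a finitely generated module over its centre: there are finitely many
`ρ j` in `R` such that every `r` in `R` acts on `B/A` as a sum of elements `c j * ρ j` where `c j`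
acts centrally on `B/A` (commutes there with the action of every element of `R`). -/
def FinOverCenter (A B : Submodule R M) : Prop :=
  ∃ (m : ℕ) (ρ : Fin m → R), ∀ r : R, ∃ c : Fin m → R,
    (∀ j, ∀ s : R, ∀ x ∈ B, (c j * s) • x - (s * c j) • x ∈ A) ∧
    ∀ x ∈ B, r • x - ∑ j, (c j * ρ j) • x ∈ A

/-- a semisimple cyclic submodule lies in `bigL` -/
theorem mem_bigL_of_semisimple {w : M} (h : IsSemisimpleModule R (Submodule.span R {w})) :
    w ∈ (bigL : Submodule R M) := by
  classical
  have h1 := IsSemisimpleModule.sSup_simples_eq_top R (Submodule.span R {w})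
  have h2 : (sSup {m : Submodule R (Submodule.span R {w}) | IsSimpleModule R m}).map
      (Submodule.span R {w}).subtype ≤ (bigL : Submodule R M) := by
    rw [Submodule.map_le_iff_le_comap]
    refine sSup_le ?_
    intro m hm
    rw [← Submodule.map_le_iff_le_comap]
    apply simple_le_bigL
    have hm' : IsSimpleModule R m := hm
    exact IsSimpleModule.congr
      (Submodule.equivMapOfInjective _ (Submodule.injective_subtype _) m).symm
  rw [h1] at h2
  exact h2 ⟨⟨w, Submodule.mem_span_singleton_self w⟩, trivial, rfl⟩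

theorem art_of_fin {x : M} {m : ℕ} (ρ : Fin m → R)
    (hρ : ∀ r : R, ∃ c : Fin m → R,
      (∀ j, ∀ s : R, ∀ v ∈ Submodule.span R {x}, (c j * s - s * c j) • v ∈
        (bigL : Submodule R M)) ∧
      ∀ v ∈ Submodule.span R {x}, (r - ∑ j, c j * ρ j) • v ∈ (bigL : Submodule R M))
    (S : Submodule R M) (hS : IsSimpleModule R S) (y : M) (hyS : y ∈ S)
    (hyx : ∀ r : R, (∀ v ∈ Submodule.span R {x}, r • v ∈ (bigL : Submodule R M)) → r • y = 0)
    (w : M) (hw : ∀ p : R, (∀ t : R, p • t • y = 0) → p • w = 0) :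
    w ∈ (bigL : Submodule R M) := by
  classical
  let φ : R →ₗ[R] (Fin m → S) :=
    LinearMap.pi (fun j => LinearMap.toSpanSingleton R S ⟨ρ j • y, S.smul_mem _ hyS⟩)
  have hφ : ∀ r : R, φ r = 0 → ∀ j, r • ρ j • y = 0 := by
    intro r hr j
    have h1 := congrArg Subtype.val (congrFun hr j)
    exact h1
  have hker : LinearMap.ker φ ≤ LinearMap.ker (LinearMap.toSpanSingleton R M w) := by
    intro r hr
    rw [LinearMap.mem_ker, LinearMap.toSpanSingleton_apply]
    have hr' := hφ r hr
    apply hw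
    intro t
    obtain ⟨c, hc, hct⟩ := hρ t
    have h1 := hyx _ hct
    rw [sub_smul, sub_eq_zero, Finset.sum_smul] at h1
    rw [h1, Finset.smul_sum]
    refine Finset.sum_eq_zero ?_
    intro j _
    have h2 : ((c j * r - r * c j) * ρ j) • y = 0 := by
      apply hyx
      intro v hv
      rw [mul_smul]
      exact hc j r _ (Submodule.smul_mem _ _ hv)
    rw [mul_smul, sub_smul, mul_smul, mul_smul, hr' j, smul_zero, zero_sub, neg_eq_zero] at h2
    rw [mul_smul]
    exact h2
  apply mem_bigL_of_semisimple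
  have hS' : IsSimpleModule R S := hS
  have h3 : IsSemisimpleModule R (R ⧸ LinearMap.ker φ) :=
    IsSemisimpleModule.congr φ.quotKerEquivRange
  have h4 : IsSemisimpleModule R (R ⧸ LinearMap.ker (LinearMap.toSpanSingleton R M w)) := by
    let q : (R ⧸ LinearMap.ker φ) →ₗ[R] (R ⧸ LinearMap.ker (LinearMap.toSpanSingleton R M w)) :=
      Submodule.factor hker
    exact IsSemisimpleModule.of_surjective q (Submodule.factor_surjective hker)
  have e1 := (LinearMap.toSpanSingleton R M w).quotKerEquivRange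
  rw [LinearMap.range_toSpanSingleton] at e1
  exact IsSemisimpleModule.congr e1.symm

theorem map_mem_of_finOverCenter (hWI : WeaklyInjective R M) (hE : EssentialSocle R M)
    {A B : Submodule R M} (h : FinOverCenter A B) (B' : Submodule R M) (hB' : B' ≤ B)
    (f : B' →ₗ[R] M) (hf : ∀ x : B', (x : M) ∈ A → f x = 0) (x : B') :
    f x ∈ (bigL : Submodule R M) := by
  classical
  by_contra hx0
  obtain ⟨m, ρ, hρ⟩ := h
  let V0 : Submodule R M := Submodule.span R {f x}
  -- transfer from `B/A`
  have hV0 : ∀ r : R, (∀ b ∈ B, r • b ∈ A) → ∀ v ∈ V0, r • v = 0 := by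
    intro r hr v hv
    obtain ⟨t, rfl⟩ := Submodule.mem_span_singleton.1 hv
    rw [← map_smul, ← map_smul]
    exact hf _ (hr _ (B.smul_mem t (hB' x.2)))
  have hρ' : ∀ r : R, ∃ c : Fin m → R,
      (∀ j, ∀ s : R, ∀ v ∈ V0, (c j * s - s * c j) • v = 0) ∧
      ∀ v ∈ V0, (r - ∑ j, c j * ρ j) • v = 0 := by
    intro r
    obtain ⟨c, hc, hcr⟩ := hρ r
    refine ⟨c, ?_, ?_⟩
    · intro j s
      apply hV0
      intro b hb
      rw [sub_smul]
      exact hc j s b hb
    · apply hV0
      intro b hb
      rw [sub_smul, Finset.sum_smul]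
      exact hcr b hb
  let X0 : Submodule R (M ⧸ (bigL : Submodule R M)) := V0.map (Submodule.mkQ bigL)
  let E0 : R →+* AddMonoid.End X0 := Module.toAddMonoidEnd R X0
  have hE0 : ∀ (r : R) (v : X0), E0 r v = r • v := fun r v => rfl
  let Z := Subring.center E0.range
  have hzsmul : ∀ (z : Z) (v : X0), z • v = (z : E0.range).1 v := fun z v => rfl
  have hact : ∀ z : Z, ∃ c : R, ∀ v : X0, z • v = c • v := by
    intro z
    obtain ⟨c, hc⟩ := (z : E0.range).2
    refine ⟨c, ?_⟩
    intro v
    rw [hzsmul, ← hc]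
    exact hE0 c v
  have hcomm : ∀ (z : Z) (r : R) (v : X0), z • r • v = r • z • v := by
    intro z r v
    have h1 := (Subring.mem_center_iff.1 z.2) ⟨E0 r, r, rfl⟩
    have h2 := congrArg (fun q : E0.range => q.1 v) h1
    exact h2.symm
  have i1 : SMulCommClass Z R X0 := ⟨hcomm⟩
  have i2 : SMulCommClass R Z X0 := ⟨fun r z v => (hcomm z r v).symm⟩
  -- elements of `R` acting centrally on `V0` give elements of `Z`
  have hZ : ∀ c : R, (∀ s : R, ∀ v ∈ V0, (c * s - s * c) • v = 0) →
      ∃ z : Z, ∀ v : X0, z • v = c • v := by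
    intro c hc
    refine ⟨⟨⟨E0 c, c, rfl⟩, ?_⟩, fun v => rfl⟩
    rw [Subring.mem_center_iff]
    rintro ⟨_, s, rfl⟩
    apply Subtype.ext
    apply AddMonoidHom.ext
    rintro ⟨v, v', hv', rfl⟩
    apply Subtype.ext
    have h1 := hc s v' hv'
    rw [sub_smul, sub_eq_zero, mul_smul, mul_smul] at h1
    change s • c • (Submodule.mkQ bigL v') = c • s • (Submodule.mkQ bigL v')
    rw [← map_smul, ← map_smul, ← map_smul, ← map_smul, h1]
  have hρX : ∀ r : R, ∃ a : Fin m → Z, ∀ v : X0, r • v = ∑ j, a j • ρ j • v := by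
    intro r
    obtain ⟨c, hc, hcr⟩ := hρ' r
    choose z hz using fun j => hZ (c j) (hc j)
    refine ⟨z, ?_⟩
    rintro ⟨v, v', hv', rfl⟩
    have h1 := hcr v' hv'
    rw [sub_smul, sub_eq_zero, Finset.sum_smul] at h1
    have h2 : ∀ j, z j • ρ j • (⟨Submodule.mkQ bigL v', v', hv', rfl⟩ : X0) =
        c j • ρ j • (⟨Submodule.mkQ bigL v', v', hv', rfl⟩ : X0) := fun j => hz j _
    rw [Finset.sum_congr rfl (fun j _ => h2 j)]
    apply Subtype.ext
    rw [Submodule.coe_sum]
    change r • Submodule.mkQ bigL v' = ∑ j, c j • ρ j • Submodule.mkQ bigL v'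
    rw [← map_smul, h1, map_sum]
    refine Finset.sum_congr rfl ?_
    intro j _
    rw [mul_smul, map_smul, map_smul]
  have hcent : ∀ (z : Z) (c : R), (∀ v : X0, z • v = c • v) → ∀ r : R, ∀ v ∈ V0,
      (c * r - r * c) • v ∈ (bigL : Submodule R M) := by
    intro z c hzc r v hv
    have h1 := hcomm z r ⟨Submodule.mkQ bigL v, v, hv, rfl⟩
    rw [hzc, hzc] at h1
    have h2 : c • r • Submodule.mkQ bigL v = r • c • Submodule.mkQ bigL v :=
      congrArg Subtype.val h1
    rw [← Submodule.ker_mkQ (bigL : Submodule R M), LinearMap.mem_ker, map_smul, sub_smul,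
      mul_smul, mul_smul, h2, sub_self]
  have hred : ∀ (z : Z) (v : X0), z • z • v = 0 → z • v = 0 := by
    rintro z ⟨v, v', hv', rfl⟩ hzz
    obtain ⟨c, hzc⟩ := hact z
    rw [hzc, hzc] at hzz
    rw [hzc]
    have h1 : c • c • Submodule.mkQ bigL v' = 0 := congrArg Subtype.val hzz
    rw [← map_smul, ← map_smul, ← LinearMap.mem_ker, Submodule.ker_mkQ] at h1
    apply Subtype.ext
    change c • Submodule.mkQ bigL v' = 0
    rw [← map_smul, ← LinearMap.mem_ker, Submodule.ker_mkQ]
    refine smul_mem_bigL_of_central hWI ?_ h1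
    intro r v hv
    refine hcent z c hzc r v ?_
    have h2 : Submodule.span R {v'} ≤ V0 := by
      rw [Submodule.span_singleton_le_iff_mem]
      exact hv'
    exact h2 hv
  have hX : ∃ v : X0, v ≠ 0 := by
    refine ⟨⟨Submodule.mkQ bigL (f x), f x, Submodule.mem_span_singleton_self _, rfl⟩, ?_⟩
    intro h0
    apply hx0
    have h1 : Submodule.mkQ bigL (f x) = 0 := congrArg Subtype.val h0
    rw [← LinearMap.mem_ker, Submodule.ker_mkQ] at h1
    exact h1
  obtain ⟨⟨v1, x1, hx1, hv1⟩, hv0, hstar⟩ := exists_star ρ hρX hact hred hX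
  subst hv1
  have hle : Submodule.span R {x1} ≤ V0 := by
    rw [Submodule.span_singleton_le_iff_mem]
    exact hx1
  have hx1b : x1 ∉ (bigL : Submodule R M) := by
    intro h0
    apply hv0
    apply Subtype.ext
    change Submodule.mkQ bigL x1 = 0
    rw [← LinearMap.mem_ker, Submodule.ker_mkQ]
    exact h0
  apply hx1b
  refine mem_bigL_of_star hWI hE ?_ ?_
  · intro n hnb hn
    obtain ⟨u, hu, n', hn', hun⟩ := Submodule.mem_sup.1 hn
    obtain ⟨r, rfl⟩ := Submodule.mem_span_singleton.1 hn'
    obtain ⟨z, hz0, hz⟩ := hstar (r • ⟨Submodule.mkQ bigL x1, x1, hx1, rfl⟩)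
      (Submodule.smul_mem _ r (Submodule.mem_span_singleton_self _)) (by
        intro h0
        apply hnb
        have h1 : r • Submodule.mkQ bigL x1 = 0 := congrArg Subtype.val h0
        rw [← map_smul, ← LinearMap.mem_ker, Submodule.ker_mkQ] at h1
        rw [← hun]
        exact Submodule.add_mem _ hu h1)
    obtain ⟨c, hzc⟩ := hact z
    refine ⟨c, fun r v hv => hcent z c hzc r v (hle hv), ?_, ?_⟩
    · intro h0
      apply hz0
      rw [hzc]
      apply Subtype.ext
      change c • Submodule.mkQ bigL x1 = 0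
      rw [← map_smul, ← LinearMap.mem_ker, Submodule.ker_mkQ]
      exact h0
    · obtain ⟨s, hs⟩ := Submodule.mem_span_singleton.1 hz
      rw [hzc] at hs
      have h1 : s • r • Submodule.mkQ bigL x1 = c • Submodule.mkQ bigL x1 :=
        congrArg Subtype.val hs
      have h2 : c • x1 - s • r • x1 ∈ (bigL : Submodule R M) := by
        rw [← Submodule.ker_mkQ (bigL : Submodule R M), LinearMap.mem_ker, map_sub, map_smul,
          map_smul, map_smul, h1, sub_self]
      have h3 : c • x1 = ((c • x1 - s • r • x1) - s • u) + s • n := by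
        rw [← hun, smul_add]
        abel
      rw [h3]
      exact Submodule.add_mem_sup (Submodule.sub_mem _ h2 (Submodule.smul_mem _ s hu))
        (Submodule.smul_mem _ s (Submodule.mem_span_singleton_self n))
  · intro S hS y hyS _ hyx w hw
    refine art_of_fin ρ ?_ S hS y hyS hyx w hw
    intro r
    obtain ⟨c, hc, hcr⟩ := hρ' r
    refine ⟨c, ?_, ?_⟩
    · intro j s v hv
      rw [hc j s v (hle hv)]
      exact Submodule.zero_mem _
    · intro v hv
      rw [hcr v (hle hv)]
      exact Submodule.zero_mem _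

end Pool.Agent.Lib.MP_6bfc9e_al
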