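import Mathlib
import Pool.Agent.Lib.MP_6bfc9e_al.FinLayer

/-! Maps defined on submodules with a filtration of Gabriel type whose layers may be modules over
rings which are finitely generated over their centres. -/

set_option autoImplicit false

namespace Pool.Agent.Lib.MP_6bfc9e_al

variable {R : Type*} [Ring R] {M : Type*} [AddCommGroup M] [Module R M]

/-- `FCDim A B` (for submodules `A ≤ B` of `M`), inductively: either `R / ann(B/A)` is a finitely
generated module over its centre, or every nonzero factor module `B/U` (where `A ≤ U < B`) has a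
nonzero submodule `Z/U` such that every proper factor module `Z/Y` of it (where `U < Y ≤ Z`)
satisfies the condition. -/
inductive FCDim : Submodule R M → Submodule R M → Prop
  | fin (A B : Submodule R M) (h : FinOverCenter A B) : FCDim A B
  | mk (A B : Submodule R M) (Z : Submodule R M → Submodule R M)
      (h1 : ∀ U, A ≤ U → U < B → U < Z U ∧ Z U ≤ B)
      (h2 : ∀ U, A ≤ U → U < B → ∀ Y, U < Y → Y ≤ Z U → FCDim Y (Z U)) : FCDim A B

/-- Gabriel dimension is the case without layers of the first kind. -/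
theorem fcDim_of_gabrielDim {A B : Submodule R M} (h : GabrielDim A B) : FCDim A B := by
  induction h with
  | mk A B Z h1 _ ih => exact FCDim.mk A B Z h1 ih

/-- If `R` acts commutatively on `B/A` then the first alternative holds. -/
theorem finOverCenter_of_comm {A B : Submodule R M}
    (h : ∀ r s : R, ∀ x ∈ B, (r * s) • x - (s * r) • x ∈ A) : FinOverCenter A B := by
  refine ⟨1, fun _ => 1, ?_⟩
  intro r
  refine ⟨fun _ => r, fun _ s x hx => h r s x hx, ?_⟩
  intro x _
  simp

/-- If `R` is a finitely generated module over its centre then the first alternative holds. -/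
theorem finOverCenter_of_finite [Module.Finite (Subring.center R) R] (A B : Submodule R M) :
    FinOverCenter A B := by
  classical
  obtain ⟨m, ρ, hρ⟩ := Module.Finite.exists_fin (R := Subring.center R) (M := R)
  refine ⟨m, ρ, ?_⟩
  intro r
  have h1 : r ∈ Submodule.span (Subring.center R) (Set.range ρ) := by
    rw [hρ]
    trivial
  obtain ⟨c, hc⟩ := (Submodule.mem_span_range_iff_exists_fun (Subring.center R)).1 h1
  refine ⟨fun j => (c j : R), ?_, ?_⟩
  · intro j s x _
    have h2 := Subring.mem_center_iff.1 (c j).2 s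
    rw [← h2, sub_self]
    exact A.zero_mem
  · intro x _
    have h2 : r • x = ∑ j, ((c j : R) * ρ j) • x := by
      rw [← Finset.sum_smul, ← hc]
      rfl
    rw [h2, sub_self]
    exact A.zero_mem

theorem fcKey (hWI : WeaklyInjective R M) (hE : EssentialSocle R M) {A B : Submodule R M}
    (hG : FCDim A B) : A ≤ B → ∀ (B' : Submodule R M), B' ≤ B → ∀ f : B' →ₗ[R] M,
      (∀ x : B', (x : M) ∈ A → f x = 0) → ∀ x : B', f x ∈ (bigL : Submodule R M) := by
  classical
  induction hG with
  | fin A B h =>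
    intro _ B' hB' f hf x
    exact map_mem_of_finOverCenter hWI hE h B' hB' f hf x
  | mk A B Z h1 h2 ih =>
    intro hAB B' hB' f hf
    by_contra hcon
    push Not at hcon
    obtain ⟨x0, hx0⟩ := hcon
    let U' : Submodule R M := (bigL.comap f).map B'.subtype
    have hU' : ∀ x : B', (x : M) ∈ U' ↔ f x ∈ (bigL : Submodule R M) := by
      intro x
      constructor
      · rintro ⟨y, hy, hyx⟩
        have : y = x := Subtype.ext hyx
        subst this
        exact hy
      · intro h
        exact ⟨x, h, rfl⟩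
    have hU'B : U' ≤ B' := by
      rintro _ ⟨x, _, rfl⟩
      exact x.2
    let S : Set (Submodule R M) := {U | U ≤ B ∧ U ⊓ B' ≤ U'}
    have hAS : A ∈ S := by
      refine ⟨hAB, ?_⟩
      rintro x ⟨hxA, hxB⟩
      refine (hU' ⟨x, hxB⟩).2 ?_
      rw [hf ⟨x, hxB⟩ hxA]
      exact Submodule.zero_mem _
    obtain ⟨U, hAU, hUS, hUmax⟩ := zorn_le_nonempty₀ S (by
      intro c hc hchain y hy
      refine ⟨sSup c, ⟨sSup_le fun z hz => (hc hz).1, ?_⟩, fun z hz => le_sSup hz⟩
      rintro x ⟨hx, hxB⟩
      obtain ⟨z, hz, hxz⟩ := (Submodule.mem_sSup_of_directed ⟨y, hy⟩ hchain.directedOn).1 hx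
      exact (hc hz).2 ⟨hxz, hxB⟩) A hAS
    have hUB : U ≤ B := hUS.1
    have hU'U : U' ≤ U := by
      have : U ⊔ U' ∈ S := by
        refine ⟨sup_le hUB (hU'B.trans hB'), ?_⟩
        rw [sup_comm, sup_inf_assoc_of_le U hU'B]
        exact sup_le le_rfl hUS.2
      exact le_trans le_sup_right (hUmax this le_sup_left)
    have hUlt : U < B := by
      refine lt_of_le_of_ne hUB ?_
      rintro rfl
      exact hx0 ((hU' x0).1 (hUS.2 ⟨hB' x0.2, x0.2⟩))
    obtain ⟨hUZ, hZB⟩ := h1 U hAU hUlt
    have hZS : ¬ (Z U ⊓ B' ≤ U') := by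
      intro h
      exact absurd (hUmax ⟨hZB, h⟩ hUZ.le) (not_le_of_gt hUZ)
    obtain ⟨z1, ⟨hz1Z, hz1B⟩, hz1⟩ := SetLike.not_le_iff_exists.1 hZS
    have hz1' : f ⟨z1, hz1B⟩ ∉ (bigL : Submodule R M) := fun h => hz1 ((hU' ⟨z1, hz1B⟩).2 h)
    let L : Submodule R M := bigL ⊔ ((Z U).comap B'.subtype).map f
    have hrel : RelInj L := by
      refine relInj_of hWI le_sup_left ?_
      intro N g hbN hNL hg
      by_cases hk : ∀ x : N, g x = 0 → (x : M) ∈ (bigL : Submodule R M)
      · have hNb := le_bigL_of_ker hWI hE g hbN hg hk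
        refine ⟨0, ?_⟩
        intro x hx _
        rw [hg ⟨x, hx⟩ (hNb hx)]
        rfl
      · push Not at hk
        obtain ⟨k, hk0, hkb⟩ := hk
        -- Z_N
        let ZN : Submodule R M := ((Z U) ⊓ (N.comap f).map B'.subtype)
        have hZNB : ZN ≤ B' := by
          rintro x ⟨_, y, _, rfl⟩
          exact y.2
        have hZN : ∀ x : ZN, f ⟨x, hZNB x.2⟩ ∈ N := by
          rintro ⟨x, hx, y, hy, rfl⟩
          exact hy
        let F : ZN →ₗ[R] M := g ∘ₗ LinearMap.codRestrict N (f ∘ₗ Submodule.inclusion hZNB) hZN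
        have hF : ∀ x : ZN, F x = g ⟨f ⟨x, hZNB x.2⟩, hZN x⟩ := fun x => rfl
        let Y' : Submodule R M := (LinearMap.ker F).map ZN.subtype
        have hdec : ∀ n : N, ∃ m : N, (m : M) ∈ (bigL : Submodule R M) ∧ ∃ z : ZN,
            f ⟨z, hZNB z.2⟩ + m = n := by
          rintro ⟨n, hn⟩
          obtain ⟨m, hm, w, ⟨z, hz, hzw⟩, hmw⟩ := Submodule.mem_sup.1 (hNL hn)
          have hfz : f z ∈ N := by
            have : f z = n - m := by rw [← hmw, ← hzw]; abel
            rw [this]
            exact N.sub_mem hn (hbN hm)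
          refine ⟨⟨m, hbN hm⟩, hm, ⟨z, hz, z, hfz, rfl⟩, ?_⟩
          change f z + m = n
          rw [← hmw, ← hzw, add_comm]
        obtain ⟨m, hm, z, hmz⟩ := hdec k
        have hgz : F z = 0 := by
          have h3 : (⟨f ⟨z, hZNB z.2⟩, hZN z⟩ : N) = k - m := by
            apply Subtype.ext
            change f ⟨z, _⟩ = (k : M) - (m : M)
            rw [← hmz, add_sub_cancel_right]
          rw [hF, h3, map_sub, hk0, hg m hm, sub_zero]
        have hzU : (z : M) ∉ U := by
          intro h
          apply hkb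
          rw [← hmz]
          exact Submodule.add_mem _ ((hU' ⟨z, hZNB z.2⟩).1 (hUS.2 ⟨h, hZNB z.2⟩)) hm
        have hYlt : U < U ⊔ Y' := by
          refine lt_of_le_of_ne le_sup_left ?_
          intro h
          apply hzU
          rw [h]
          exact (le_sup_right : Y' ≤ U ⊔ Y') ⟨z, hgz, rfl⟩
        have hY'Z : Y' ≤ ZN := by
          rintro _ ⟨x, _, rfl⟩
          exact x.2
        have hYZ : U ⊔ Y' ≤ Z U := sup_le hUZ.le (hY'Z.trans inf_le_left)
        have hvan : ∀ x : ZN, (x : M) ∈ U ⊔ Y' → F x = 0 := by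
          intro x hx
          obtain ⟨u, hu, y, ⟨y', hy', rfl⟩, huy⟩ := Submodule.mem_sup.1 hx
          have huZ : u ∈ ZN := by
            have : u = x - y' := by rw [← huy]; simp
            rw [this]
            exact ZN.sub_mem x.2 y'.2
          have hFu : F ⟨u, huZ⟩ = 0 := by
            rw [hF]
            apply hg
            exact (hU' ⟨u, hZNB huZ⟩).1 (hUS.2 ⟨hu, hZNB huZ⟩)
          have hx' : x = ⟨u, huZ⟩ + y' := Subtype.ext huy.symm
          rw [hx', map_add, hFu, zero_add]
          exact hy'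
        have hIH := ih U hAU hUlt (U ⊔ Y') hYlt hYZ hYZ ZN inf_le_left F hvan
        have hgN : ∀ n : N, g n ∈ N := by
          intro n
          obtain ⟨m, hm, z, hmz⟩ := hdec n
          have h3 : n = ⟨f ⟨z, hZNB z.2⟩, hZN z⟩ + m := Subtype.ext hmz.symm
          rw [h3, map_add, hg m hm, add_zero, ← hF]
          exact hbN (hIH z)
        obtain ⟨t, ht⟩ := hWI N (LinearMap.codRestrict N g hgN)
        refine ⟨t ∘ₗ L.subtype, ?_⟩
        intro x hx _
        exact ht ⟨x, hx⟩
    have hLb : L ≤ bigL := le_sSup hrel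
    exact hz1' (hLb ((le_sup_right : _ ≤ L) ⟨⟨z1, hz1B⟩, hz1Z, rfl⟩))


/-- maps defined on submodules of a submodule `N` with `FCDim ⊥ N` extend -/
theorem extend_of_fcDim (hWI : WeaklyInjective R M) (hE : EssentialSocle R M)
    (N N' : Submodule R M) (hN : FCDim ⊥ N) (hN' : N' ≤ N) (f : N' →ₗ[R] M) :
    ∃ g : M →ₗ[R] M, ∀ x : N', g (x : M) = f x := by
  have hle : N ≤ bigL := by
    intro x hx
    exact fcKey hWI hE hN bot_le N le_rfl N.subtype (fun y hy => hy) ⟨x, hx⟩
  exact extend_of_le_bigL hWI N N' hle hN' f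

end Pool.Agent.Lib.MP_6bfc9e_al
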