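import Mathlib
import Pool.Agent.Lib.MP_6bfc9e_al.Core

/-! Modules in which the kernels of the endomorphisms are fully invariant. -/

set_option autoImplicit false

namespace Pool.Agent.Lib.MP_6bfc9e_al

variable {R : Type*} [Ring R] {M : Type*} [AddCommGroup M] [Module R M]

/-- the fully invariant closure of a submodule -/
def invClosure (K : Submodule R M) : Submodule R M := ⨆ b : M →ₗ[R] M, K.map b

theorem le_invClosure (K : Submodule R M) : K ≤ invClosure K := by
  refine le_trans ?_ (le_iSup (fun b : M →ₗ[R] M => K.map b) LinearMap.id)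
  rw [Submodule.map_id]

theorem invClosure_mono {K K' : Submodule R M} (h : K ≤ K') : invClosure K ≤ invClosure K' :=
  iSup_mono fun _ => Submodule.map_mono h

theorem map_invClosure (K : Submodule R M) (g : M →ₗ[R] M) {x : M} (hx : x ∈ invClosure K) :
    g x ∈ invClosure K := by
  have h : invClosure K ≤ (invClosure K).comap g := by
    refine iSup_le fun b => ?_
    rintro _ ⟨k, hk, rfl⟩
    change g (b k) ∈ invClosure K
    exact (le_iSup (fun b : M →ₗ[R] M => K.map b) (g ∘ₗ b)) ⟨k, hk, rfl⟩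
  exact h hx

/-- if all `y b` kill `K` then `y` kills the closure of `K` -/
theorem eq_zero_of_mem_invClosure {K : Submodule R M} {y : M →ₗ[R] M}
    (h : ∀ b : M →ₗ[R] M, ∀ x ∈ K, y (b x) = 0) {x : M} (hx : x ∈ invClosure K) : y x = 0 := by
  have h1 : invClosure K ≤ LinearMap.ker y := by
    refine iSup_le fun b => ?_
    rintro _ ⟨k, hk, rfl⟩
    exact h b k hk
  exact h1 hx

theorem extend_of_invKer (hWI : WeaklyInjective R M) (hE : EssentialSocle R M)
    (hker : ∀ y b : M →ₗ[R] M, (∀ x ∈ Socle R M, y x = 0) → ∀ x : M, y x = 0 → y (b x) = 0)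
    {N : Submodule R M} (hN : Socle R M ≤ N) (f : N →ₗ[R] M) :
    ∃ g : M →ₗ[R] M, ∀ x : N, g (x : M) = f x := by
  classical
  refine extendable_of_chain hWI hE hN f (exists_agree_socle hWI hN f) ?_
  intro c hc hchain hcN hext
  choose! G hG using hext
  -- the differences kill the closures
  have hdiff : ∀ K ∈ c, ∀ K' ∈ c, K ≤ K' → ∀ x ∈ invClosure K, G K' x = G K x := by
    intro K hK K' hK' hle x hx
    have h1 : ∀ x ∈ K, (G K' - G K) x = 0 := by
      intro x hx
      have h2 := hG K hK ⟨x, (hcN K hK).2 hx⟩ hx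
      have h3 := hG K' hK' ⟨x, (hcN K hK).2 hx⟩ (hle hx)
      change G K' x - G K x = 0
      change G K x = _ at h2
      change G K' x = _ at h3
      rw [h2, h3, sub_self]
    have h4 : (G K' - G K) x = 0 := by
      refine eq_zero_of_mem_invClosure ?_ hx
      intro b x hx
      exact hker _ b (fun z hz => h1 z ((hcN K hK).1 hz)) x (h1 x hx)
    exact sub_eq_zero.1 h4
  -- glue
  let P : Submodule R M → (M →ₗ.[R] M) := fun K =>
    ⟨invClosure K, (G K) ∘ₗ (invClosure K).subtype⟩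
  have hP : ∀ K ∈ c, ∀ K' ∈ c, K ≤ K' → P K ≤ P K' := by
    intro K hK K' hK' hle
    refine ⟨invClosure_mono hle, ?_⟩
    rintro ⟨x, hx⟩ ⟨y, hy⟩ hxy
    dsimp at hxy
    subst hxy
    exact (hdiff K hK K' hK' hle x hx).symm
  have hdir : DirectedOn (· ≤ ·) (P '' c) := by
    rintro _ ⟨K, hK, rfl⟩ _ ⟨K', hK', rfl⟩
    rcases hchain.total hK hK' with h | h
    · exact ⟨P K', ⟨K', hK', rfl⟩, hP K hK K' hK' h, le_rfl⟩
    · exact ⟨P K, ⟨K, hK, rfl⟩, le_rfl, hP K' hK' K hK h⟩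
  let F : M →ₗ.[R] M := LinearPMap.sSup (P '' c) hdir
  have hPF : ∀ K ∈ c, P K ≤ F := fun K hK => LinearPMap.le_sSup hdir ⟨K, hK, rfl⟩
  have hval : ∀ K ∈ c, ∀ (x : M) (hx : x ∈ invClosure K) (hxF : x ∈ F.domain),
      F ⟨x, hxF⟩ = G K x := by
    intro K hK x hx hxF
    exact ((hPF K hK).2 (x := ⟨x, hx⟩) (y := ⟨x, hxF⟩) rfl).symm
  have hdom : ∀ x ∈ F.domain, ∃ K ∈ c, x ∈ invClosure K := by
    intro x hx
    have h1 : F.domain = sSup (LinearPMap.domain '' (P '' c)) := rfl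
    rw [h1] at hx
    have hne : (LinearPMap.domain '' (P '' c)).Nonempty := (hc.image _).image _
    have hdir2 : DirectedOn (· ≤ ·) (LinearPMap.domain '' (P '' c)) := by
      rintro _ ⟨_, ⟨K, hK, rfl⟩, rfl⟩ _ ⟨_, ⟨K', hK', rfl⟩, rfl⟩
      rcases hchain.total hK hK' with h | h
      · exact ⟨(P K').domain, ⟨_, ⟨K', hK', rfl⟩, rfl⟩, invClosure_mono h, le_rfl⟩
      · exact ⟨(P K).domain, ⟨_, ⟨K, hK, rfl⟩, rfl⟩, le_rfl, invClosure_mono h⟩
    obtain ⟨_, ⟨_, ⟨K, hK, rfl⟩, rfl⟩, hxK⟩ := (Submodule.mem_sSup_of_directed hne hdir2).1 hx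
    exact ⟨K, hK, hxK⟩
  have hst : ∀ x : F.domain, F x ∈ F.domain := by
    rintro ⟨x, hx⟩
    obtain ⟨K, hK, hxK⟩ := hdom x hx
    rw [hval K hK x hxK hx]
    exact (hPF K hK).1 (map_invClosure K (G K) hxK)
  obtain ⟨g, hg⟩ := hWI F.domain (LinearMap.codRestrict F.domain F.toFun hst)
  refine ⟨g, ?_⟩
  intro x hx
  obtain ⟨K, hK, hxK⟩ := (Submodule.mem_sSup_of_directed hc hchain.directedOn).1 hx
  have hxI : (x : M) ∈ invClosure K := le_invClosure K hxK
  have hxF : (x : M) ∈ F.domain := (hPF K hK).1 hxI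
  have h1 : g x = F ⟨x, hxF⟩ := hg ⟨x, hxF⟩
  rw [h1, hval K hK x hxI hxF]
  exact hG K hK x hxK

/-- Kernels of the endomorphisms which vanish on the socle fully invariant: quasi-injective. -/
theorem quasiInjective_of_invKer (hWI : WeaklyInjective R M) (hE : EssentialSocle R M)
    (hker : ∀ y b : M →ₗ[R] M, (∀ x ∈ Socle R M, y x = 0) → ∀ x : M, y x = 0 → y (b x) = 0) :
    QuasiInjective R M :=
  quasi_of_contains_socle fun _ hN f => extend_of_invKer hWI hE hker hN f

end Pool.Agent.Lib.MP_6bfc9e_al
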