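import Mathlib
import Pool.Agent.Lib.MP_6bfc9e_al.Core

set_option autoImplicit false

namespace Pool.Agent.Lib.MP_6bfc9e_al

variable {R : Type*} [Ring R] {M : Type*} [AddCommGroup M] [Module R M]

/-- `(N, f)` has no proper extension with values in `M`. -/
def IsMaxPair (N : Submodule R M) (f : N →ₗ[R] M) : Prop :=
  ∀ (N' : Submodule R M) (f' : N' →ₗ[R] M) (h : N ≤ N'),
    (∀ x : N, f' ⟨x, h x.2⟩ = f x) → N' ≤ N

theorem exists_isMaxPair (N : Submodule R M) (f : N →ₗ[R] M) :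
    ∃ (N' : Submodule R M) (f' : N' →ₗ[R] M) (h : N ≤ N'),
      (∀ x : N, f' ⟨x, h x.2⟩ = f x) ∧ IsMaxPair N' f' := by
  obtain ⟨F, hF, hmax⟩ := exists_maximal (⟨N, f⟩ : M →ₗ.[R] M)
  refine ⟨F.domain, F.toFun, hF.1, ?_, ?_⟩
  · intro x
    exact (hF.2 (x := x) (y := ⟨x, hF.1 x.2⟩) rfl).symm
  · intro N' f' h hf'
    have hle : F ≤ (⟨N', f'⟩ : M →ₗ.[R] M) := by
      refine ⟨h, ?_⟩
      intro x y hxy
      have : y = ⟨x, h x.2⟩ := Subtype.ext hxy.symm
      subst this
      exact (hf' x).symm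
    have := hmax _ hle
    rw [← this]

theorem IsMaxPair.sub {N : Submodule R M} {f : N →ₗ[R] M} (h : IsMaxPair N f)
    (g : M →ₗ[R] M) : IsMaxPair N (f - g ∘ₗ N.subtype) := by
  intro N' f' hN hf'
  refine h N' (f' + g ∘ₗ N'.subtype) hN ?_
  intro x
  change f' ⟨x, hN x.2⟩ + g x = f x
  rw [hf' x]
  change f x - g x + g x = f x
  abel

/-- a maximal pair that vanishes on `N ∩ X` has `X ≤ N` -/
theorem IsMaxPair.le_of_zero {N : Submodule R M} {f : N →ₗ[R] M} (h : IsMaxPair N f)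
    (X : Submodule R M) (h0 : ∀ x : N, (x : M) ∈ X → f x = 0) : X ≤ N := by
  let F : M →ₗ.[R] M := ⟨N, f⟩
  let Z : M →ₗ.[R] M := ⟨X, 0⟩
  have hagree : ∀ (x : F.domain) (y : Z.domain), (x : M) = y → F x = Z y := by
    intro x y hxy
    have h1 : F x = 0 := h0 x (hxy ▸ y.2)
    rw [h1]
    rfl
  have h1 : F ≤ LinearPMap.sup F Z hagree := LinearPMap.left_le_sup _ _ _
  have h2 : Z ≤ LinearPMap.sup F Z hagree := LinearPMap.right_le_sup _ _ _
  have h3 : (LinearPMap.sup F Z hagree).domain ≤ N := by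
    refine h (LinearPMap.sup F Z hagree).domain (LinearPMap.sup F Z hagree).toFun h1.1 ?_
    intro x
    exact (h1.2 (x := x) (y := ⟨x, h1.1 x.2⟩) rfl).symm
  exact le_trans h2.1 h3

theorem IsMaxPair.socle_le {N : Submodule R M} {f : N →ₗ[R] M} (h : IsMaxPair N f) :
    Socle R M ≤ N := by
  unfold Socle
  refine sSup_le ?_
  intro S hS
  by_contra hnot
  have : IsSimpleModule R S := hS
  have hatom : IsAtom S := isSimpleModule_iff_isAtom.mp hS
  have hbot : S ⊓ N = ⊥ := by
    rcases hatom.le_iff.mp (inf_le_left : S ⊓ N ≤ S) with h | h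
    · exact h
    · exact absurd (inf_eq_left.mp h) hnot
  refine hnot (h.le_of_zero S ?_)
  intro x hx
  have hx0 : (x : M) ∈ S ⊓ N := ⟨hx, x.2⟩
  rw [hbot] at hx0
  have : x = 0 := Subtype.ext hx0
  rw [this, map_zero]

/-- endomorphisms map the socle to the socle -/
theorem map_socle (g : M →ₗ[R] M) {x : M} (hx : x ∈ Socle R M) : g x ∈ Socle R M :=
  map_socle_le (N := ⊤) (g ∘ₗ (⊤ : Submodule R M).subtype) ⟨x, trivial⟩ hx le_top

/-- restriction to a stable submodule extends -/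
theorem exists_extend_stable (hWI : WeaklyInjective R M) {N : Submodule R M} (f : N →ₗ[R] M)
    (X : Submodule R M) (hX : X ≤ N) (hst : ∀ x : N, (x : M) ∈ X → f x ∈ X) :
    ∃ g : M →ₗ[R] M, ∀ x : N, (x : M) ∈ X → g x = f x := by
  let e : X →ₗ[R] X := LinearMap.codRestrict X (f ∘ₗ Submodule.inclusion hX)
    (fun x => hst ⟨x, hX x.2⟩ x.2)
  obtain ⟨g, hg⟩ := hWI X e
  exact ⟨g, fun x hx => hg ⟨x, hx⟩⟩

/-- The property propagated along the series. -/
def Good (X : Submodule R M) : Prop :=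
  Socle R M ≤ X ∧ (∀ g : M →ₗ[R] M, ∀ x ∈ X, g x ∈ X) ∧
    ∀ (N : Submodule R M) (f : N →ₗ[R] M), IsMaxPair N f →
      (∀ x : N, (x : M) ∈ Socle R M → f x = 0) →
      X ≤ N ∧ ∀ x : N, (x : M) ∈ X → f x ∈ X

theorem good_socle : Good (Socle R M) := by
  refine ⟨le_rfl, fun g x hx => map_socle g hx, ?_⟩
  intro N f hmax hf
  refine ⟨hmax.socle_le, ?_⟩
  intro x hx
  rw [hf x hx]
  exact Submodule.zero_mem _

theorem good_sSup : Good (sSup {X : Submodule R M | Good X}) := by
  refine ⟨le_sSup good_socle, ?_, ?_⟩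
  · intro g
    have : sSup {X : Submodule R M | Good X} ≤ (sSup {X : Submodule R M | Good X}).comap g := by
      refine sSup_le ?_
      intro X hX x hx
      exact (le_sSup hX : X ≤ _) (hX.2.1 g x hx)
    exact fun x hx => this hx
  · intro N f hmax hf
    have hle : sSup {X : Submodule R M | Good X} ≤ N := by
      refine sSup_le ?_
      intro X hX
      exact (hX.2.2 N f hmax hf).1
    refine ⟨hle, ?_⟩
    have : sSup {X : Submodule R M | Good X} ≤
        ((sSup {X : Submodule R M | Good X}).comap f).map N.subtype := by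
      refine sSup_le ?_
      intro X hX x hx
      refine ⟨⟨x, (hX.2.2 N f hmax hf).1 hx⟩, ?_, rfl⟩
      exact (le_sSup hX : X ≤ _) ((hX.2.2 N f hmax hf).2 _ hx)
    intro x hx
    obtain ⟨y, hy, hyx⟩ := this hx
    have : y = x := Subtype.ext hyx
    subst this
    exact hy

theorem good_step (hWI : WeaklyInjective R M) (hE : EssentialSocle R M)
    {X : Submodule R M} (hX : Good X) {X' : Submodule R M}
    (hX' : ∀ x : M, x ∈ X' ↔ ∀ g : M →ₗ[R] M, (∀ y ∈ X, g y = 0) → g x ∈ X) :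
    Good X' := by
  classical
  obtain ⟨hSX, hinv, hpair⟩ := hX
  have hXX' : X ≤ X' := fun x hx => (hX' x).2 fun g _ => hinv g x hx
  have hinv' : ∀ g : M →ₗ[R] M, ∀ x ∈ X', g x ∈ X' := by
    intro h x hx
    rw [hX'] at hx ⊢
    intro g hg
    exact hx (g ∘ₗ h) (fun y hy => hg _ (hinv h y hy))
  refine ⟨le_trans hSX hXX', hinv', ?_⟩
  intro N f hmax hf
  obtain ⟨hXN, hst⟩ := hpair N f hmax hf
  obtain ⟨g, hg⟩ := exists_extend_stable hWI f X hXN hst
  -- `f1 = f - g` kills `X`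
  let f1 : N →ₗ[R] M := f - g ∘ₗ N.subtype
  have hf1 : ∀ x : N, f1 x = f x - g x := fun x => rfl
  have hf1X : ∀ x : N, (x : M) ∈ X → f1 x = 0 := by
    intro x hx
    rw [hf1, hg x hx, sub_self]
  obtain ⟨K, gK, hXK, hKN, hgK, hback⟩ := step hWI f1 X hXN 0 (fun x hx => by
    rw [hf1X x hx]; rfl)
  obtain ⟨K', gK', hKK', hK'N, hgK', hback'⟩ := step hWI f1 K hKN gK hgK
  have hgKX : ∀ y ∈ X, gK y = 0 := by
    intro y hy
    have := hgK ⟨y, hXN hy⟩ (hXK hy)
    rw [this]
    exact hf1X ⟨y, hXN hy⟩ hy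
  have hgKX' : ∀ y ∈ X, gK' y = 0 := by
    intro y hy
    have := hgK' ⟨y, hXN hy⟩ (hKK' (hXK hy))
    rw [this]
    exact hf1X ⟨y, hXN hy⟩ hy
  -- `f1 - gK` vanishes on `N ∩ X'`
  have hzero : ∀ x : N, (x : M) ∈ X' → (f1 - gK ∘ₗ N.subtype) x = 0 := by
    let V : Submodule R M := ((X'.comap N.subtype).map (f1 - gK ∘ₗ N.subtype))
    have hV : V = ⊥ := by
      apply eq_bot_of_inf_socle hE
      rw [eq_bot_iff]
      rintro _ ⟨⟨x, hx, rfl⟩, hxS⟩
      have hx' : (x : M) ∈ X' := hx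
      have hval : (f1 - gK ∘ₗ N.subtype) x = f1 x - gK x := rfl
      rw [hval] at hxS ⊢
      have h1 : (x : M) ∈ K' := hback' x (hXK (hSX hxS))
      have h2 : gK' x = f1 x := hgK' x h1
      have h3 : f1 x ∈ X := by
        rw [← h2]
        exact (hX' x).1 hx' gK' hgKX'
      have h5 : (x : M) ∈ K := hback x (by
        change f1 x - 0 ∈ X
        rw [sub_zero]
        exact h3)
      rw [hgK x h5, sub_self]
      exact Submodule.zero_mem _
    intro x hx
    have : (f1 - gK ∘ₗ N.subtype) x ∈ V := ⟨x, hx, rfl⟩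
    rw [hV, Submodule.mem_bot] at this
    exact this
  refine ⟨((hmax.sub g).sub gK).le_of_zero X' hzero, ?_⟩
  intro x hx
  have h1 : f1 x - gK x = 0 := hzero x hx
  have h2 : f1 x = gK x := sub_eq_zero.mp h1
  have h3 : f x = g x + gK x := by
    rw [← h2, hf1]
    abel
  rw [h3]
  exact X'.add_mem (hinv' g x hx) (hXX' ((hX' x).1 hx gK hgKX))

/-- If outside every proper fully invariant submodule `X ⊇ Soc M` there is an element which all
endomorphisms killing `X` move into `X`, then the module is quasi-injective. -/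
theorem quasi_of_loewy (hWI : WeaklyInjective R M) (hE : EssentialSocle R M)
    (hL : ∀ X : Submodule R M, Socle R M ≤ X → X ≠ ⊤ →
      (∀ g : M →ₗ[R] M, ∀ x ∈ X, g x ∈ X) →
      ∃ x, x ∉ X ∧ ∀ g : M →ₗ[R] M, (∀ y ∈ X, g y = 0) → g x ∈ X) :
    QuasiInjective R M := by
  classical
  have htop : sSup {X : Submodule R M | Good X} = ⊤ := by
    by_contra hne
    have hgood := good_sSup (R := R) (M := M)
    obtain ⟨x, hx, hxg⟩ := hL _ hgood.1 hne hgood.2.1
    let X := sSup {X : Submodule R M | Good X}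
    let X' : Submodule R M :=
      { carrier := {z | ∀ g : M →ₗ[R] M, (∀ y ∈ X, g y = 0) → g z ∈ X}
        add_mem' := by
          intro a b ha hb g hg
          rw [map_add]
          exact X.add_mem (ha g hg) (hb g hg)
        zero_mem' := by
          intro g _
          rw [map_zero]
          exact X.zero_mem
        smul_mem' := by
          intro r a ha g hg
          rw [map_smul]
          exact X.smul_mem r (ha g hg) }
    have hg' : Good X' := good_step hWI hE hgood (X' := X') (fun z => Iff.rfl)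
    have : x ∈ X := (le_sSup hg' : X' ≤ _) (fun g hg => hxg g hg)
    exact hx this
  apply quasi_of_kills_socle hWI
  intro N hN f hf
  obtain ⟨N', f', hNN', hf', hmax⟩ := exists_isMaxPair N f
  have hgood := good_sSup (R := R) (M := M)
  have hkill : ∀ x : N', (x : M) ∈ Socle R M → f' x = 0 := by
    intro x hx
    have := hf' ⟨x, hN hx⟩
    change f' x = _ at this
    rw [this]
    exact hf ⟨x, hN hx⟩ hx
  have h1 := (hgood.2.2 N' f' hmax hkill).1
  rw [htop] at h1
  refine ⟨f' ∘ₗ Submodule.inclusion h1 ∘ₗ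
    (Submodule.topEquiv.symm : M ≃ₗ[R] (⊤ : Submodule R M)).toLinearMap, ?_⟩
  intro x
  rw [← hf' x]
  rfl

end Pool.Agent.Lib.MP_6bfc9e_al
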