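import Mathlib
import Pool.Agent.Lib.MP_6bfc9e_al.Max

/-! # Weakly injective modules with small orbits of endomorphisms -/

set_option autoImplicit false

namespace Pool.Agent.Lib.MP_6bfc9e_al

universe u v

variable {R : Type u} [Ring R] {M : Type v} [AddCommGroup M] [Module R M]

/-- for every `x` the set of the values at `x` of the endomorphisms has less than continuum many
elements -/
def SmallOrbits (R : Type u) (M : Type v) [Ring R] [AddCommGroup M] [Module R M] : Prop :=
  ∀ x : M, Cardinal.mk {y : M // ∃ g : M →ₗ[R] M, g x = y} < Cardinal.continuum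

open Classical in
/-- locally finite sums of endomorphisms of a submodule -/
theorem exists_sum_stable (L : Submodule R M) (w : ℕ → L →ₗ[R] M) (hst : ∀ i m, w i m ∈ L)
    (hw : ∀ m : L, ∃ n, ∀ i, n ≤ i → w i m = 0) (s : Set ℕ) :
    ∃ F : L →ₗ[R] L, ∀ (m : L) (n : ℕ), (∀ i, n ≤ i → w i m = 0) →
      ((F m : L) : M) = ∑ i ∈ Finset.range n, if i ∈ s then w i m else 0 := by
  have key : ∀ (m : L) (n k : ℕ), (∀ i, n ≤ i → w i m = 0) → n ≤ k →
      ∑ i ∈ Finset.range n, (if i ∈ s then w i m else 0) =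
        ∑ i ∈ Finset.range k, (if i ∈ s then w i m else 0) := by
    intro m n k hn hnk
    induction k, hnk using Nat.le_induction with
    | base => rfl
    | succ k hk ih => rw [Finset.sum_range_succ, hn k hk, ite_self, add_zero, ih]
  have key2 : ∀ (m : L) (n k : ℕ), (∀ i, n ≤ i → w i m = 0) → (∀ i, k ≤ i → w i m = 0) →
      ∑ i ∈ Finset.range n, (if i ∈ s then w i m else 0) =
        ∑ i ∈ Finset.range k, (if i ∈ s then w i m else 0) := by
    intro m n k hn hk
    rcases le_total n k with h | h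
    · exact key m n k hn h
    · exact (key m k n hk h).symm
  let ix : L → ℕ := fun m => Classical.choose (hw m)
  have hix : ∀ m : L, ∀ i, ix m ≤ i → w i m = 0 := fun m => Classical.choose_spec (hw m)
  let F : L → L := fun m => ⟨∑ i ∈ Finset.range (ix m), (if i ∈ s then w i m else 0),
    L.sum_mem fun i _ => by
      split
      · exact hst i m
      · exact L.zero_mem⟩
  have hF : ∀ (m : L) (n : ℕ), (∀ i, n ≤ i → w i m = 0) →
      ((F m : L) : M) = ∑ i ∈ Finset.range n, if i ∈ s then w i m else 0 :=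
    fun m n hn => key2 m _ _ (hix m) hn
  refine ⟨{ toFun := F, map_add' := ?_, map_smul' := ?_ }, hF⟩
  · intro y z
    apply Subtype.ext
    have hy : ∀ i, max (ix y) (ix z) ≤ i → w i y = 0 :=
      fun i hi => hix y i (le_trans (le_max_left _ _) hi)
    have hz : ∀ i, max (ix y) (ix z) ≤ i → w i z = 0 :=
      fun i hi => hix z i (le_trans (le_max_right _ _) hi)
    rw [Submodule.coe_add, hF y _ hy, hF z _ hz, hF (y + z) (max (ix y) (ix z))
      (fun i hi => by rw [map_add, hy i hi, hz i hi, add_zero]), ← Finset.sum_add_distrib]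
    refine Finset.sum_congr rfl fun i _ => ?_
    split
    · exact map_add (w i) _ _
    · rw [add_zero]
  · intro c y
    apply Subtype.ext
    rw [RingHom.id_apply, Submodule.coe_smul, hF y _ (hix y), hF (c • y) (ix y)
      (fun i hi => by rw [map_smul, hix y i hi, smul_zero]), Finset.smul_sum]
    refine Finset.sum_congr rfl fun i _ => ?_
    split
    · exact map_smul (w i) _ _
    · rw [smul_zero]

/-- the stable family lemma -/
theorem stable_family (hWI : WeaklyInjective R M) (hc : SmallOrbits R M) (L : Submodule R M)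
    (w : ℕ → L →ₗ[R] M) (hst : ∀ i m, w i m ∈ L)
    (hw : ∀ m : L, ∃ n, ∀ i, n ≤ i → w i m = 0) (x : M)
    (hr : ∀ i, ∃ (r : R) (h : r • x ∈ L), w i ⟨r • x, h⟩ ≠ 0 ∧
      ∀ j, i < j → w j ⟨r • x, h⟩ = 0) : False := by
  classical
  choose F hF using fun s => exists_sum_stable L w hst hw s
  choose g hg using fun s => hWI L (F s)
  choose r hrL h1 h2 using hr
  have hinj : Function.Injective
      (fun s : Set ℕ => (⟨g s x, g s, rfl⟩ : {y : M // ∃ g : M →ₗ[R] M, g x = y})) := by
    intro s t hst'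
    have hval : g s x = g t x := congrArg Subtype.val hst'
    by_contra hne
    have hex : ∃ i, ¬ (i ∈ s ↔ i ∈ t) := by
      by_contra hcon
      apply hne
      ext i
      by_contra hi
      exact hcon ⟨i, hi⟩
    set i := Nat.find hex with hi
    have hi1 : ¬ (i ∈ s ↔ i ∈ t) := Nat.find_spec hex
    have hi2 : ∀ j < i, (j ∈ s ↔ j ∈ t) := fun j hj => not_not.1 (Nat.find_min hex hj)
    have hz : ∀ j, i + 1 ≤ j → w j ⟨r i • x, hrL i⟩ = 0 := fun j hj => h2 i j hj
    have e1 := hF s ⟨r i • x, hrL i⟩ (i + 1) hz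
    have e2 := hF t ⟨r i • x, hrL i⟩ (i + 1) hz
    rw [← hg s] at e1
    rw [← hg t] at e2
    simp only [map_smul, hval] at e1 e2
    rw [e1, Finset.sum_range_succ, Finset.sum_range_succ] at e2
    have e3 : ∑ j ∈ Finset.range i, (if j ∈ s then w j ⟨r i • x, hrL i⟩ else 0) =
        ∑ j ∈ Finset.range i, (if j ∈ t then w j ⟨r i • x, hrL i⟩ else 0) := by
      refine Finset.sum_congr rfl fun j hj => ?_
      have := hi2 j (Finset.mem_range.1 hj)
      by_cases hjs : j ∈ s
      · rw [if_pos hjs, if_pos (this.1 hjs)]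
      · rw [if_neg hjs, if_neg fun hjt => hjs (this.2 hjt)]
    rw [e3] at e2
    have e4 := add_left_cancel e2
    by_cases his : i ∈ s
    · have hit : i ∉ t := fun hit => hi1 ⟨fun _ => hit, fun _ => his⟩
      rw [if_pos his, if_neg hit] at e4
      exact h1 i e4
    · have hit : i ∈ t := by
        by_contra hit
        exact hi1 ⟨fun h => absurd h his, fun h => absurd h hit⟩
      rw [if_neg his, if_pos hit] at e4
      exact h1 i e4.symm
  have h3 := Cardinal.lift_mk_le_lift_mk_of_injective hinj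
  rw [Cardinal.mk_set_nat, Cardinal.lift_continuum, Cardinal.continuum_le_lift] at h3
  exact absurd (hc x) (not_lt.2 h3)

/-- a nonzero element has a nonzero multiple in the socle -/
theorem exists_smul_socle (hE : EssentialSocle R M) {y : M} (hy : y ≠ 0) :
    ∃ r : R, r • y ≠ 0 ∧ r • y ∈ Socle R M := by
  have h1 : Submodule.span R {y} ≠ ⊥ := by
    rw [Ne, Submodule.span_singleton_eq_bot]
    exact hy
  obtain ⟨z, hz, hz0⟩ := (Submodule.ne_bot_iff _).1 (hE _ h1)
  obtain ⟨r, hr⟩ := Submodule.mem_span_singleton.1 hz.1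
  refine ⟨r, ?_, ?_⟩
  · rw [hr]; exact hz0
  · rw [hr]; exact hz.2

/-- local nilpotency -/
theorem locally_nilpotent (hWI : WeaklyInjective R M) (hE : EssentialSocle R M)
    (hc : SmallOrbits R M) {X : Submodule R M} (hX : Socle R M ≤ X) (L : Submodule R M)
    (z : L →ₗ[R] L) (hz : ∀ m : L, (m : M) ∈ X → z m = 0) (q : L) : ∃ n : ℕ, (z ^ n) q = 0 := by
  classical
  by_contra hcon
  have hcon' : ∀ n : ℕ, (z ^ n) q ≠ 0 := fun n hn => hcon ⟨n, hn⟩
  -- the union of the kernels of the powers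
  have hmono : ∀ (m : L) (n k : ℕ), (z ^ n) m = 0 → n ≤ k → (z ^ k) m = 0 := by
    intro m n k hn hnk
    obtain ⟨l, rfl⟩ := Nat.exists_eq_add_of_le hnk
    rw [add_comm, pow_add, Module.End.mul_apply, hn, map_zero]
  let K : Submodule R L :=
    { carrier := {m | ∃ n : ℕ, (z ^ n) m = 0}
      add_mem' := by
        rintro a b ⟨n, hn⟩ ⟨k, hk⟩
        refine ⟨max n k, ?_⟩
        rw [map_add, hmono a n _ hn (le_max_left _ _), hmono b k _ hk (le_max_right _ _), add_zero]
      zero_mem' := ⟨0, by simp⟩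
      smul_mem' := by
        rintro c a ⟨n, hn⟩
        exact ⟨n, by rw [map_smul, hn, smul_zero]⟩ }
  let L' : Submodule R M := K.map L.subtype
  have hL' : L' ≤ L := by
    rintro _ ⟨y, -, rfl⟩
    exact y.2
  have hmem : ∀ m : L, (m : M) ∈ L' ↔ ∃ n : ℕ, (z ^ n) m = 0 := by
    intro m
    constructor
    · rintro ⟨y, hy, hym⟩
      have : y = m := Subtype.ext hym
      subst this
      exact hy
    · intro h
      exact ⟨m, h, rfl⟩
  let w : ℕ → L' →ₗ[R] M := fun i => L.subtype ∘ₗ (z ^ i) ∘ₗ Submodule.inclusion hL'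
  have hwv : ∀ i (m : L'), w i m = (((z ^ i) ⟨m, hL' m.2⟩ : L) : M) := fun i m => rfl
  refine stable_family hWI hc L' w ?_ ?_ (q : M) ?_
  · intro i m
    rw [hwv, hmem]
    obtain ⟨n, hn⟩ := (hmem ⟨m, hL' m.2⟩).1 m.2
    refine ⟨n, ?_⟩
    rw [← Module.End.mul_apply, ← pow_add, add_comm, pow_add, Module.End.mul_apply, hn, map_zero]
  · intro m
    obtain ⟨n, hn⟩ := (hmem ⟨m, hL' m.2⟩).1 m.2
    refine ⟨n, fun i hi => ?_⟩
    rw [hwv, hmono _ n i hn hi]
    rfl
  · intro i
    have hne : (((z ^ i) q : L) : M) ≠ 0 := fun h => hcon' i (Subtype.ext h)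
    obtain ⟨r, hr1, hr2⟩ := exists_smul_socle hE hne
    have h1 : (z ^ (i + 1)) (r • q) = 0 := by
      rw [pow_succ', Module.End.mul_apply]
      apply hz
      rw [map_smul]
      exact hX hr2
    have h2 : r • (q : M) ∈ L' := (hmem (r • q)).2 ⟨i + 1, h1⟩
    refine ⟨r, h2, ?_, ?_⟩
    · rw [hwv]
      have h3 : (⟨r • (q : M), hL' h2⟩ : L) = r • q := rfl
      rw [h3, map_smul]
      exact hr1
    · intro j hj
      rw [hwv]
      have h3 : (⟨r • (q : M), hL' h2⟩ : L) = r • q := rfl
      rw [h3, hmono _ (i + 1) j h1 hj]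
      rfl

end Pool.Agent.Lib.MP_6bfc9e_al
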