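import Mathlib
import Pool.Agent.Lib.MP_6bfc9e_al.Small

/-! # Weakly injective modules with small orbits are quasi-injective -/

set_option autoImplicit false

namespace Pool.Agent.Lib.MP_6bfc9e_al

universe u v

variable {R : Type u} [Ring R] {M : Type v} [AddCommGroup M] [Module R M]

/-- the endomorphisms which vanish on `X` and on `Q` -/
def Kills (X : Submodule R M) (Q : Set M) (g : M →ₗ[R] M) : Prop :=
  (∀ y ∈ X, g y = 0) ∧ ∀ y ∈ Q, g y = 0

/-- the closure of `Q`, relative to `X` -/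
def Clo (X : Submodule R M) (Q : Set M) (y : M) : Prop := ∀ g, Kills X Q g → g y ∈ X

theorem Clo.sub {X : Submodule R M} {Q : Set M} {a b : M} (ha : Clo X Q a) (hb : Clo X Q b) :
    Clo X Q (a - b) := by
  intro g hg
  rw [map_sub]
  exact X.sub_mem (ha g hg) (hb g hg)

theorem Clo.of_mem {X : Submodule R M} {Q : Set M} {a : M} (ha : a ∈ X) : Clo X Q a := by
  intro g hg
  rw [hg.1 a ha]
  exact X.zero_mem

theorem pow_mem {X : Submodule R M} (hinv : ∀ g : M →ₗ[R] M, ∀ x ∈ X, g x ∈ X)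
    (z : M →ₗ[R] M) (n : ℕ) {x : M} (hx : x ∈ X) : (z ^ n) x ∈ X := hinv (z ^ n) x hx

/-- endomorphisms that vanish on `X` are locally nilpotent -/
theorem exists_pow_mem (hWI : WeaklyInjective R M) (hE : EssentialSocle R M)
    (hc : SmallOrbits R M) {X : Submodule R M} (hX : Socle R M ≤ X) (z : M →ₗ[R] M)
    (hz : ∀ y ∈ X, z y = 0) (q : M) : ∃ n : ℕ, (z ^ n) q = 0 := by
  let z' : (⊤ : Submodule R M) →ₗ[R] (⊤ : Submodule R M) :=
    LinearMap.codRestrict ⊤ (z ∘ₗ (⊤ : Submodule R M).subtype) fun _ => trivial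
  have hv : ∀ (n : ℕ) (m : (⊤ : Submodule R M)),
      (((z' ^ n) m : (⊤ : Submodule R M)) : M) = (z ^ n) (m : M) := by
    intro n
    induction n with
    | zero => intro m; rfl
    | succ n ih =>
      intro m
      rw [pow_succ, Module.End.mul_apply, ih, pow_succ, Module.End.mul_apply]
      rfl
  obtain ⟨n, hn⟩ := locally_nilpotent hWI hE hc hX ⊤ z' (fun m hm => Subtype.ext (hz m hm))
    ⟨q, trivial⟩
  refine ⟨n, ?_⟩
  rw [← hv n ⟨q, trivial⟩, hn]
  rfl

section step2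

variable {X : Submodule R M} {Q : Set M} {q : M}

theorem square_step (hWI : WeaklyInjective R M) (hE : EssentialSocle R M)
    (hc : SmallOrbits R M) (hX : Socle R M ≤ X) (hinv : ∀ g : M →ₗ[R] M, ∀ x ∈ X, g x ∈ X)
    (hmove : ∀ x, x ∉ X → ∃ g : M →ₗ[R] M, (∀ y ∈ X, g y = 0) ∧ g x ∉ X)
    {w : M →ₗ[R] M} (hw : Kills X Q w) (hwq : w q ∉ X) :
    ∃ t : M →ₗ[R] M, (∀ y ∈ X, t y = 0) ∧ Kills X Q (t ∘ₗ w) ∧ (t ∘ₗ w) q ∉ X ∧
      (t ∘ₗ w) ((t ∘ₗ w) q) ∈ X := by
  classical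
  obtain ⟨g, hg, hgw⟩ := hmove _ hwq
  set z : M →ₗ[R] M := g ∘ₗ w with hz
  have hzX : ∀ y ∈ X, z y = 0 := fun y hy => hg _ (hinv w y hy)
  obtain ⟨N, hN⟩ := exists_pow_mem hWI hE hc hX z hzX q
  have hex : ∃ n : ℕ, (z ^ (n + 1)) q ∈ X := by
    refine ⟨N, ?_⟩
    rw [pow_succ', Module.End.mul_apply, hN, map_zero]
    exact X.zero_mem
  obtain ⟨n, hn1, hn2⟩ : ∃ n, (z ^ (n + 1)) q ∈ X ∧ ∀ m < n, (z ^ (m + 1)) q ∉ X :=
    ⟨Nat.find hex, Nat.find_spec hex, fun m hm => Nat.find_min hex hm⟩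
  cases n with
  | zero =>
    exfalso
    apply hgw
    rw [zero_add, pow_one] at hn1
    exact hn1
  | succ n =>
    have h1 : (z ^ (n + 1)) q ∉ X := hn2 n (Nat.lt_succ_self n)
    have h2 : (z ^ n * g : Module.End R M) ∘ₗ w = z ^ (n + 1) := by
      rw [pow_succ]
      rfl
    refine ⟨(z ^ n * g : Module.End R M), ?_, ?_, ?_, ?_⟩
    · intro y hy
      rw [Module.End.mul_apply, hg y hy, map_zero]
    · constructor
      · intro y hy
        rw [LinearMap.comp_apply, hw.1 y hy, map_zero]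
      · intro y hy
        rw [LinearMap.comp_apply, hw.2 y hy, map_zero]
    · rw [h2]; exact h1
    · rw [h2, ← Module.End.mul_apply, ← pow_add,
        show n + 1 + (n + 1) = n + (n + 1 + 1) by omega, pow_add, Module.End.mul_apply]
      exact pow_mem hinv z n hn1

/-- Step 2 -/
theorem exists_new (hWI : WeaklyInjective R M) (hE : EssentialSocle R M)
    (hc : SmallOrbits R M) (hX : Socle R M ≤ X) (hinv : ∀ g : M →ₗ[R] M, ∀ x ∈ X, g x ∈ X)
    (hmove : ∀ x, x ∉ X → ∃ g : M →ₗ[R] M, (∀ y ∈ X, g y = 0) ∧ g x ∉ X)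
    (hq : ¬ Clo X Q q) : ∃ z, Kills X Q z ∧ ¬ Clo X (insert q Q) (z q) := by
  classical
  by_contra hcon
  have hneg : ∀ z, Kills X Q z → Clo X (insert q Q) (z q) := by
    intro z hz
    by_contra h
    exact hcon ⟨z, hz, h⟩
  -- the improved form
  have star : ∀ g h : M →ₗ[R] M, Kills X Q g → Kills X Q h → h q ∈ X → h (g q) ∈ X := by
    intro g h hg hh hhq
    by_contra hno
    obtain ⟨k, hk, hkn⟩ := hmove _ hno
    have h1 := hneg g hg (k ∘ₗ h) ⟨fun y hy => by rw [LinearMap.comp_apply, hh.1 y hy, map_zero],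
      fun y hy => by
        rcases Set.mem_insert_iff.1 hy with rfl | hy
        · exact hk _ hhq
        · rw [LinearMap.comp_apply, hh.2 y hy, map_zero]⟩
    exact hkn h1
  let Y : Submodule R M :=
    { carrier := {m | ∀ w, Kills X Q w → w q ∈ X → w m ∈ X}
      add_mem' := by
        intro a b ha hb w hw hwq
        rw [map_add]
        exact X.add_mem (ha w hw hwq) (hb w hw hwq)
      zero_mem' := by
        intro w _ _
        rw [map_zero]
        exact X.zero_mem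
      smul_mem' := by
        intro r a ha w hw hwq
        rw [map_smul]
        exact X.smul_mem r (ha w hw hwq) }
  have hqY : q ∈ Y := fun w _ hwq => hwq
  have hcomp : ∀ g h : M →ₗ[R] M, Kills X Q g → Kills X Q h → Kills X Q (h ∘ₗ g) := by
    intro g h hg hh
    exact ⟨fun y hy => by rw [LinearMap.comp_apply, hg.1 y hy, map_zero],
      fun y hy => by rw [LinearMap.comp_apply, hg.2 y hy, map_zero]⟩
  have hYst : ∀ g, Kills X Q g → ∀ m ∈ Y, g m ∈ Y := by
    intro g hg m hm w hw hwq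
    exact hm (w ∘ₗ g) (hcomp g w hg hw) (star g w hg hw hwq)
  -- the sequence
  let W : Type v := {w : M →ₗ[R] M // Kills X Q w ∧ w q ∉ X ∧ w (w q) ∈ X}
  have hW0 : Nonempty W := by
    have : ∃ g, Kills X Q g ∧ g q ∉ X := by
      by_contra h
      apply hq
      intro g hg
      by_contra hgq
      exact h ⟨g, hg, hgq⟩
    obtain ⟨g, hg, hgq⟩ := this
    obtain ⟨t, -, h1, h2, h3⟩ := square_step hWI hE hc hX hinv hmove hg hgq
    exact ⟨⟨t ∘ₗ g, h1, h2, h3⟩⟩
  have hstep : ∀ w : W, ∃ w' : W, ∃ t : M →ₗ[R] M, (∀ y ∈ X, t y = 0) ∧ w'.1 = t ∘ₗ w.1 := by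
    intro w
    obtain ⟨t, h0, h1, h2, h3⟩ := square_step hWI hE hc hX hinv hmove w.2.1 w.2.2.1
    exact ⟨⟨t ∘ₗ w.1, h1, h2, h3⟩, t, h0, rfl⟩
  choose nx hnx using hstep
  obtain ⟨w0⟩ := hW0
  let s : ℕ → W := fun n => Nat.rec w0 (fun _ w => nx w) n
  have hs : ∀ n, s (n + 1) = nx (s n) := fun n => rfl
  have hs1 : ∀ n, ∃ t : M →ₗ[R] M, (∀ y ∈ X, t y = 0) ∧ (s (n + 1)).1 = t ∘ₗ (s n).1 := by
    intro n
    rw [hs]
    exact hnx (s n)
  have hker : ∀ n m, (s n).1 m ∈ X → (s (n + 1)).1 m = 0 := by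
    intro n m hm
    obtain ⟨t, ht, he⟩ := hs1 n
    rw [he, LinearMap.comp_apply, ht _ hm]
  have hker1 : ∀ n m, (s n).1 m = 0 → (s (n + 1)).1 m = 0 := fun n m hm =>
    hker n m (by rw [hm]; exact X.zero_mem)
  have hker2 : ∀ n k m, (s n).1 m = 0 → n ≤ k → (s k).1 m = 0 := by
    intro n k m hm hnk
    induction k, hnk using Nat.le_induction with
    | base => exact hm
    | succ k _ ih => exact hker1 k m ih
  let L : Submodule R M :=
    { carrier := {m | m ∈ Y ∧ ∃ n, (s n).1 m = 0}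
      add_mem' := by
        rintro a b ⟨ha, n, hn⟩ ⟨hb, k, hk⟩
        refine ⟨Y.add_mem ha hb, max n k, ?_⟩
        rw [map_add, hker2 n _ a hn (le_max_left _ _), hker2 k _ b hk (le_max_right _ _), add_zero]
      zero_mem' := ⟨Y.zero_mem, 0, map_zero _⟩
      smul_mem' := by
        rintro c a ⟨ha, n, hn⟩
        exact ⟨Y.smul_mem c ha, n, by rw [map_smul, hn, smul_zero]⟩ }
  refine stable_family hWI hc L (fun i => (s i).1 ∘ₗ L.subtype) ?_ ?_ q ?_
  · intro i m
    refine ⟨hYst _ (s i).2.1 _ m.2.1, i + 1, ?_⟩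
    apply hker
    exact m.2.1 ((s i).1 ∘ₗ (s i).1) (hcomp _ _ (s i).2.1 (s i).2.1) (s i).2.2.2
  · intro m
    obtain ⟨n, hn⟩ := m.2.2
    exact ⟨n, fun i hi => hker2 n i m hn hi⟩
  · intro i
    have hne : (s i).1 q ≠ 0 := fun h => (s i).2.2.1 (by rw [h]; exact X.zero_mem)
    obtain ⟨r, hr1, hr2⟩ := exists_smul_socle hE hne
    have h1 : (s (i + 1)).1 (r • q) = 0 := by
      apply hker
      rw [map_smul]
      exact hX hr2
    refine ⟨r, ⟨Y.smul_mem r hqY, i + 1, h1⟩, ?_, ?_⟩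
    · show (s i).1 (r • q) ≠ 0
      rw [map_smul]
      exact hr1
    · intro j hj
      exact hker2 (i + 1) j _ h1 hj

end step2

/-- Step 3 -/
theorem false_of_moving (hWI : WeaklyInjective R M) (hE : EssentialSocle R M)
    (hc : SmallOrbits R M) {X : Submodule R M} (hX : Socle R M ≤ X) (hne : X ≠ ⊤)
    (hinv : ∀ g : M →ₗ[R] M, ∀ x ∈ X, g x ∈ X)
    (hmove : ∀ x, x ∉ X → ∃ g : M →ₗ[R] M, (∀ y ∈ X, g y = 0) ∧ g x ∉ X) : False := by
  classical
  obtain ⟨q0, hq0⟩ : ∃ q0, q0 ∉ X := by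
    by_contra h
    apply hne
    rw [eq_top_iff]
    intro y _
    by_contra hy
    exact h ⟨y, hy⟩
  -- states: (killed set, current point, current map)
  let St : Type v := {s : Set M × M × (M →ₗ[R] M) // ¬ Clo X s.1 s.2.1 ∧ ∀ y ∈ X, s.2.2 y = 0}
  have hstep : ∀ s : St, ∃ s' : St, s'.1.1 = insert s.1.2.1 s.1.1 ∧
      (∀ y ∈ s.1.1, s'.1.2.2 y = s.1.2.2 y) ∧ s'.1.2.1 = s'.1.2.2 s.1.2.1 := by
    rintro ⟨⟨Q, q, σ⟩, hq, hσ⟩
    obtain ⟨z, hz, hzq⟩ := exists_new hWI hE hc hX hinv hmove hq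
    by_cases h : Clo X (insert q Q) (σ q)
    · refine ⟨⟨(insert q Q, (σ + z) q, σ + z), ?_, ?_⟩, rfl, ?_, rfl⟩
      · intro hcl
        apply hzq
        have := hcl.sub h
        rwa [LinearMap.add_apply, add_sub_cancel_left] at this
      · intro y hy
        show (σ + z) y = 0
        rw [LinearMap.add_apply, hσ y hy, hz.1 y hy, add_zero]
      · intro y hy
        show (σ + z) y = σ y
        rw [LinearMap.add_apply, hz.2 y hy, add_zero]
    · exact ⟨⟨(insert q Q, σ q, σ), h, hσ⟩, rfl, fun y _ => rfl, rfl⟩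
  choose nx hnx1 hnx2 hnx3 using hstep
  have hs0 : ¬ Clo X (∅ : Set M) q0 := by
    intro h
    obtain ⟨g, hg, hgq⟩ := hmove q0 hq0
    exact hgq (h g ⟨hg, fun y hy => absurd hy (Set.notMem_empty y)⟩)
  let s0 : St := ⟨(∅, q0, 0), hs0, fun y _ => rfl⟩
  let s : ℕ → St := fun n => Nat.rec s0 (fun _ w => nx w) n
  have hs : ∀ n, s (n + 1) = nx (s n) := fun n => rfl
  let q : ℕ → M := fun n => (s n).1.2.1
  let σ : ℕ → M →ₗ[R] M := fun n => (s n).1.2.2
  have hQ : ∀ n, (s (n + 1)).1.1 = insert (q n) (s n).1.1 := fun n => hnx1 (s n)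
  have hσ1 : ∀ n, ∀ y ∈ (s n).1.1, σ (n + 1) y = σ n y := fun n => hnx2 (s n)
  have hqn : ∀ n, q (n + 1) = σ (n + 1) (q n) := fun n => hnx3 (s n)
  have hmemQ : ∀ n k, n < k → q n ∈ (s k).1.1 := by
    intro n k hnk
    induction k, hnk using Nat.le_induction with
    | base => rw [hQ]; exact Set.mem_insert _ _
    | succ k _ ih => rw [hQ]; exact Set.mem_insert_of_mem _ ih
  have hσq : ∀ n k, n < k → σ k (q n) = q (n + 1) := by
    intro n k hnk
    induction k, hnk using Nat.le_induction with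
    | base => exact (hqn n).symm
    | succ k hk ih => rw [hσ1 k _ (hmemQ n k hk), ih]
  have hqX : ∀ n, q n ∉ X := fun n h => (s n).2.1 (Clo.of_mem h)
  let L : Submodule R M := Submodule.span R (Set.range q)
  have hqL : ∀ n, q n ∈ L := fun n => Submodule.subset_span ⟨n, rfl⟩
  have hev : ∀ m ∈ L, ∃ m' ∈ L, ∃ n, ∀ k, n ≤ k → σ k m = m' := by
    intro m hm
    induction hm using Submodule.span_induction with
    | mem x hx =>
      obtain ⟨n, rfl⟩ := hx
      exact ⟨q (n + 1), hqL (n + 1), n + 1, fun k hk => hσq n k hk⟩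
    | zero => exact ⟨0, L.zero_mem, 0, fun k _ => map_zero _⟩
    | add x y _ _ hx hy =>
      obtain ⟨x', hx', n, hn⟩ := hx
      obtain ⟨y', hy', k, hk⟩ := hy
      exact ⟨x' + y', L.add_mem hx' hy', max n k, fun l hl => by
        rw [map_add, hn l (le_trans (le_max_left _ _) hl), hk l (le_trans (le_max_right _ _) hl)]⟩
    | smul r x _ hx =>
      obtain ⟨x', hx', n, hn⟩ := hx
      exact ⟨r • x', L.smul_mem r hx', n, fun l hl => by rw [map_smul, hn l hl]⟩
  let f : L → L := fun m => ⟨Classical.choose (hev m m.2), (Classical.choose_spec (hev m m.2)).1⟩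
  have hf : ∀ m : L, ∃ n, ∀ k, n ≤ k → σ k m = f m := fun m =>
    (Classical.choose_spec (hev m m.2)).2
  let ζ : L →ₗ[R] L :=
    { toFun := f
      map_add' := by
        intro a b
        apply Subtype.ext
        obtain ⟨n1, h1⟩ := hf a
        obtain ⟨n2, h2⟩ := hf b
        obtain ⟨n3, h3⟩ := hf (a + b)
        have e1 := h1 (max n1 (max n2 n3)) (le_max_left _ _)
        have e2 := h2 (max n1 (max n2 n3)) (le_trans (le_max_left _ _) (le_max_right _ _))
        have e3 := h3 (max n1 (max n2 n3)) (le_trans (le_max_right _ _) (le_max_right _ _))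
        rw [Submodule.coe_add, ← e1, ← e2, ← e3, Submodule.coe_add, map_add]
      map_smul' := by
        intro r a
        apply Subtype.ext
        obtain ⟨n1, h1⟩ := hf a
        obtain ⟨n3, h3⟩ := hf (r • a)
        have e1 := h1 (max n1 n3) (le_max_left _ _)
        have e3 := h3 (max n1 n3) (le_max_right _ _)
        rw [RingHom.id_apply, Submodule.coe_smul, ← e1, ← e3, Submodule.coe_smul, map_smul] }
  have hζ : ∀ m : L, (m : M) ∈ X → ζ m = 0 := by
    intro m hm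
    apply Subtype.ext
    obtain ⟨n, hn⟩ := hf m
    show (f m : M) = 0
    rw [← hn n le_rfl]
    exact (s n).2.2 m hm
  have hζq : ∀ n, ζ ⟨q n, hqL n⟩ = ⟨q (n + 1), hqL (n + 1)⟩ := by
    intro n
    apply Subtype.ext
    obtain ⟨k, hk⟩ := hf ⟨q n, hqL n⟩
    show (f ⟨q n, hqL n⟩ : M) = q (n + 1)
    rw [← hk (max k (n + 1)) (le_max_left _ _)]
    exact hσq n _ (lt_of_lt_of_le (Nat.lt_succ_self n) (le_max_right _ _))
  have hpow : ∀ n, (ζ ^ n) ⟨q 0, hqL 0⟩ = ⟨q n, hqL n⟩ := by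
    intro n
    induction n with
    | zero => rfl
    | succ n ih => rw [pow_succ', Module.End.mul_apply, ih, hζq]
  obtain ⟨n, hn⟩ := locally_nilpotent hWI hE hc hX L ζ hζ ⟨q 0, hqL 0⟩
  rw [hpow] at hn
  apply hqX n
  have : q n = 0 := congrArg Subtype.val hn
  rw [this]
  exact X.zero_mem

/-- A weakly injective module with essential socle all of whose orbits under the endomorphisms have
less than continuum many elements is quasi-injective. -/
theorem quasi_of_smallOrbits (hWI : WeaklyInjective R M) (hE : EssentialSocle R M)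
    (hc : SmallOrbits R M) : QuasiInjective R M := by
  apply quasi_of_loewy hWI hE
  intro X hX hne hinv
  by_contra hcon
  refine false_of_moving hWI hE hc hX hne hinv fun x hx => ?_
  by_contra h
  apply hcon
  refine ⟨x, hx, fun g hg => ?_⟩
  by_contra hgx
  exact h ⟨g, hg, hgx⟩

end Pool.Agent.Lib.MP_6bfc9e_al
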